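import Pool.Agent.Y840.CT.GenF
import Pool.Agent.Q253.Thin.Int
import Pool.Agent.Q253.Cov.APd
import Pool.Agent.Y822.CTu

/-!
# Patterns of shifts up to `X`: base file (helper162)

Classes, singular series and products, the comparison, and Chen's theorem with classes.
-/

set_option autoImplicit false

namespace Pool.Agent.Q162.MP

open Finset Filter
open Pool.Agent.Y840.CT (SysF GoodF VF genF rho Rough)
open Pool.Agent.Q253.Thin (SysZ IS int_upper)
open Pool.Agent.Y843.HS (Pr VV Pr_mem Pr_prime)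
open Pool.Agent.Y843.HG (V1 V1_bounds)

/-- the number of residue classes modulo `p` occupied by `H` -/
def nu (H : Finset ℕ) (p : ℕ) : ℕ := (H.image (· % p)).card

/-- the factor at `p` of the singular series -/
noncomputable def loc (H : Finset ℕ) (p : ℕ) : ℝ :=
  (1 - (nu H p : ℝ) / p) / (1 - 1 / (p : ℝ)) ^ H.card

/-- the singular series of `H` -/
noncomputable def sing (H : Finset ℕ) : ℝ := ∏' p : Nat.Primes, loc H p

open Classical in
/-- the `n ∈ (A, B]` for which `n + a` is a prime, `n + b` has at most two prime factors, all `> X ^ (1/9)`, and all `n + h`, `h ∈ H`,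
have no prime factor `≤ X ^ (1/t)` -/
noncomputable def tuples (t X A B : ℕ) (H : Finset ℕ) (a b : ℕ) : Finset ℕ :=
  (Ioc A B).filter (fun n => (n + a).Prime ∧
    ((n + b).primeFactorsList.length ≤ 2 ∧ ∀ q : ℕ, q.Prime → q ∣ n + b → (X : ℝ) ^ (1 / 9 : ℝ) < q) ∧
    ∀ h ∈ H, ∀ q : ℕ, q.Prime → (q : ℝ) ≤ (X : ℝ) ^ (1 / (t : ℝ)) → ¬ q ∣ n + h)

/-- the product over the primes `≤ y` -/
noncomputable def W (H : Finset ℕ) (y : ℕ) : ℝ := ∏ p ∈ Pr 0 y, (1 - (nu H p : ℝ) / p)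

/-! ## classes -/

/-- the classes of `-h`, `h ∈ H` -/
def Zc (H : Finset ℕ) (q : ℕ) : Finset ℕ := (H.image (· % q)).image (fun r => (q - r) % q)

lemma neg_inj {q r s : ℕ} (hr : r < q) (hs : s < q) (h : (q - r) % q = (q - s) % q) : r = s := by
  rcases Nat.eq_zero_or_pos r with hr0 | hr0
  · rcases Nat.eq_zero_or_pos s with hs0 | hs0
    · omega
    · rw [hr0, Nat.sub_zero, Nat.mod_self, Nat.mod_eq_of_lt (by omega)] at h
      omega
  · rcases Nat.eq_zero_or_pos s with hs0 | hs0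
    · rw [hs0, Nat.sub_zero, Nat.mod_self, Nat.mod_eq_of_lt (by omega)] at h
      omega
    · rw [Nat.mod_eq_of_lt (by omega), Nat.mod_eq_of_lt (by omega)] at h
      omega

lemma Zc_card (H : Finset ℕ) {q : ℕ} (hq : 0 < q) : (Zc H q).card = nu H q := by
  unfold Zc nu
  apply card_image_of_injOn
  intro r hr s hs h
  rw [mem_coe, mem_image] at hr hs
  obtain ⟨x, _, rfl⟩ := hr
  obtain ⟨y, _, rfl⟩ := hs
  exact neg_inj (Nat.mod_lt _ hq) (Nat.mod_lt _ hq) h

lemma mem_Zc (H : Finset ℕ) {q : ℕ} (hq : 0 < q) (n : ℕ) (hn : n % q ∈ Zc H q) : ∃ h ∈ H, q ∣ n + h := by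
  unfold Zc at hn
  rw [mem_image] at hn
  obtain ⟨r, hr, he⟩ := hn
  rw [mem_image] at hr
  obtain ⟨h, hh, rfl⟩ := hr
  refine ⟨h, hh, ?_⟩
  have h1 : h % q < q := Nat.mod_lt _ hq
  have h2 : n ≡ q - h % q [MOD q] := he.symm
  have h3 : n + h ≡ (q - h % q) + h % q [MOD q] := h2.add (Nat.mod_modEq h q).symm
  rw [Nat.sub_add_cancel h1.le] at h3
  exact (h3.dvd_iff dvd_rfl).2 dvd_rfl

lemma nu_le (H : Finset ℕ) (p : ℕ) : nu H p ≤ H.card := card_image_le

lemma sysZ {k : ℕ} {H : Finset ℕ} (hH : H.card = k) (hadm : ∀ p : ℕ, p.Prime → nu H p < p) : SysZ k (Zc H) where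
  card := fun p hp => by
    rw [Zc_card H hp.pos, ← hH]
    exact nu_le H p
  loc := fun p hp => by
    rw [Zc_card H hp.pos]
    exact hadm p hp
  lt := fun p hp c hc => by
    unfold Zc at hc
    rw [mem_image] at hc
    obtain ⟨r, _, rfl⟩ := hc
    exact Nat.mod_lt _ hp.pos

lemma VV_Zc (H : Finset ℕ) (y : ℕ) : VV (Zc H) 0 y = W H y := by
  unfold VV W
  apply prod_congr rfl
  intro p hp
  rw [Zc_card H (Pr_prime hp).pos]

/-- the forbidden classes for `p = n + a` -/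
def Fc (H : Finset ℕ) (a : ℕ) : Finset ℤ := (H.erase a).image (fun h : ℕ => (a : ℤ) - h)

lemma rho_le {H : Finset ℕ} {a : ℕ} (ha : a ∈ H) {q : ℕ} (hq : 0 < q) : rho (Fc H a) q ≤ nu H q := by
  unfold rho nu
  have hq0 : (q : ℤ) ≠ 0 := by exact_mod_cast hq.ne'
  have h1 : (insert 0 (Fc H a)).image (fun h : ℤ => h % q) ⊆ (H.image (· % q)).image (fun r : ℕ => ((a : ℤ) - r) % q) := by
    intro z hz
    rw [mem_image] at hz
    obtain ⟨x, hx, rfl⟩ := hz
    have h2 : ∃ h ∈ H, x = (a : ℤ) - h := by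
      rw [mem_insert] at hx
      rcases hx with hx | hx
      · exact ⟨a, ha, by rw [hx, sub_self]⟩
      · unfold Fc at hx
        rw [mem_image] at hx
        obtain ⟨h, hh, rfl⟩ := hx
        exact ⟨h, mem_of_mem_erase hh, rfl⟩
    obtain ⟨h, hh, rfl⟩ := h2
    rw [mem_image]
    refine ⟨h % q, mem_image_of_mem _ hh, ?_⟩
    have h3 : ((a : ℤ) - ((h % q : ℕ) : ℤ)) ≡ (a : ℤ) - h [ZMOD q] := by
      apply Int.ModEq.sub_left
      push_cast
      exact Int.mod_modEq _ _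
    exact h3
  exact (card_le_card h1).trans card_image_le

lemma sysF {k X : ℕ} {H : Finset ℕ} (hH : H.card = k) (hle : ∀ h ∈ H, h ≤ X) (hadm : ∀ p : ℕ, p.Prime → nu H p < p) {a b : ℕ}
    (ha : a ∈ H) (hb : b ∈ H) (hab : a ≠ b) : SysF k (2 * X) (fun _ => Fc H a) ((a : ℤ) - b) where
  card := fun q _ => by
    show (Fc H a).card ≤ k
    unfold Fc
    refine card_image_le.trans ?_
    rw [← hH]
    exact card_le_card (erase_subset _ _)
  ne := by
    intro h
    apply hab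
    omega
  size := by
    have h1 := hle a ha
    have h2 := hle b hb
    rw [abs_le]
    omega
  mem := fun q _ => by
    show (a : ℤ) - b ∈ Fc H a
    unfold Fc
    exact mem_image_of_mem _ (mem_erase.2 ⟨fun h => hab h.symm, hb⟩)
  loc := fun q hq => lt_of_le_of_lt (rho_le ha hq.pos) (hadm q hq)

lemma fac_nonneg {H : Finset ℕ} (hadm : ∀ p : ℕ, p.Prime → nu H p < p) {p : ℕ} (hp : p.Prime) : 0 ≤ 1 - (nu H p : ℝ) / p := by
  have hp0 : (0 : ℝ) < p := by exact_mod_cast hp.pos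
  rw [sub_nonneg, div_le_one hp0]
  exact_mod_cast (hadm p hp).le

lemma W_le_VF {H : Finset ℕ} (hadm : ∀ p : ℕ, p.Prime → nu H p < p) {a : ℕ} (ha : a ∈ H) (y : ℕ) :
    W H y ≤ VF (fun _ => Fc H a) y := by
  have h1 : VF (fun _ => Fc H a) y = ∏ q ∈ Pr 0 y, (1 - (rho (Fc H a) q : ℝ) / q) := by
    unfold VF
    apply prod_congr
    · ext q
      rw [Pr_mem, mem_filter, mem_Icc]
      constructor
      · rintro ⟨⟨x1, x2⟩, x3⟩
        exact ⟨⟨x3.pos, x2⟩, x3⟩
      · rintro ⟨⟨x1, x2⟩, x3⟩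
        exact ⟨⟨x3.pos, x2⟩, x3⟩
    · intro q _
      rfl
  rw [h1]
  unfold W
  apply Finset.prod_le_prod
  · intro p hp
    exact fac_nonneg hadm (Pr_prime hp)
  · intro p hp
    have hp0 : (0 : ℝ) < p := by exact_mod_cast (Pr_prime hp).pos
    have h2 : (rho (Fc H a) p : ℝ) ≤ nu H p := by exact_mod_cast rho_le ha (Pr_prime hp).pos
    have h3 := div_le_div_of_nonneg_right h2 hp0.le
    linarith

/-! ## the singular series and the products -/

lemma sing_eq (H : Finset ℕ) : sing H = Pool.Agent.H387R2.Uni.CT H := rfl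

lemma W_eq (H : Finset ℕ) (y : ℕ) : W H y = Pool.Agent.Y822.PT H y * V1 y ^ H.card := by
  have h1 : Pool.Agent.H373R2.T7.pz y = Pr 0 y := by
    ext p
    unfold Pool.Agent.H373R2.T7.pz
    rw [Pr_mem, mem_filter, mem_Icc]
    constructor
    · rintro ⟨⟨x1, x2⟩, x3⟩
      exact ⟨⟨x3.pos, x2⟩, x3⟩
    · rintro ⟨⟨x1, x2⟩, x3⟩
      exact ⟨⟨x3.pos, x2⟩, x3⟩
  unfold W Pool.Agent.Y822.PT V1
  rw [h1, ← prod_pow, ← prod_mul_distrib]
  apply prod_congr rfl
  intro p hp
  have hp1 : (1 : ℝ) < p := by exact_mod_cast (Pr_prime hp).one_lt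
  have h2 : (1 - 1 / (p : ℝ)) ^ H.card ≠ 0 := by
    apply pow_ne_zero
    have : 1 / (p : ℝ) < 1 := by rw [div_lt_one (by linarith)]; exact hp1
    linarith
  show 1 - (nu H p : ℝ) / p = (1 - (nu H p : ℝ) / p) / (1 - 1 / (p : ℝ)) ^ H.card * (1 - 1 / (p : ℝ)) ^ H.card
  rw [div_mul_cancel₀ _ h2]

lemma V1_nonneg (y : ℕ) : 0 ≤ V1 y := by
  unfold V1
  apply prod_nonneg
  intro p hp
  have hp1 : (1 : ℝ) < p := by exact_mod_cast (Pr_prime hp).one_lt
  rw [sub_nonneg, div_le_one (by linarith)]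
  exact hp1.le

/-- the products compared with the singular series -/
lemma compare (k : ℕ) : ∃ c C : ℝ, 0 < c ∧ 0 < C ∧ ∃ X₀ : ℕ, ∀ X : ℕ, X₀ ≤ X → ∀ H : Finset ℕ, H.card = k → (∀ h ∈ H, h ≤ X) →
    c * (sing H / Real.log X ^ k) ≤ W H (2 * X) ∧ W H X ≤ C * (sing H / Real.log X ^ k) := by
  obtain ⟨c, C, hc, hC, hV⟩ := V1_bounds
  refine ⟨Real.exp (-1) * (c / 2) ^ k, 2 * C ^ k, by positivity, by positivity, 2 * k ^ 3 + 2 * k ^ 2 + 3, ?_⟩
  intro X hX H hH hle
  have hX3 : 3 ≤ X := by omega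
  have hX2 : 2 ≤ X := by omega
  have hXr : (3 : ℝ) ≤ X := by exact_mod_cast hX3
  have hlX : 0 < Real.log X := Real.log_pos (by linarith)
  have hs : 0 ≤ sing H := by
    rw [sing_eq]
    exact Pool.Agent.H387R2.Uni.CT_nonneg H
  have hk3 : (2 * (k : ℝ) ^ 3) ≤ X := by exact_mod_cast (by omega : 2 * k ^ 3 ≤ X)
  have hk2 : (2 * (k : ℝ) ^ 2) ≤ X := by exact_mod_cast (by omega : 2 * k ^ 2 ≤ X)
  constructor
  · -- lower bound
    have h1 := Pool.Agent.Y822.CT_up H X (2 * X) hle (by omega)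
    have h2 : Nat.log (2 * X) X = 0 := Nat.log_of_lt (by omega)
    have hPT := Pool.Agent.Y822.PT_nonneg H (2 * X)
    have h3 : sing H ≤ Real.exp 1 * Pool.Agent.Y822.PT H (2 * X) := by
      rw [sing_eq]
      refine h1.trans ?_
      apply mul_le_mul_of_nonneg_right _ hPT
      apply Real.exp_le_exp.2
      rw [h2, Nat.cast_zero, mul_zero, zero_div]
      exact zero_le_one
    have h4 := (hV (2 * X) (by omega)).1
    have hl2 : Real.log ((2 * X : ℕ) : ℝ) ≤ 2 * Real.log X := by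
      push_cast
      rw [Real.log_mul (by norm_num) (by linarith)]
      have : Real.log 2 ≤ Real.log X := Real.log_le_log (by norm_num) (by linarith)
      linarith
    have hl20 : 0 < Real.log ((2 * X : ℕ) : ℝ) := Real.log_pos (by push_cast; linarith)
    have h5 : c / 2 / Real.log X ≤ V1 (2 * X) := by
      refine le_trans ?_ h4
      rw [div_div]
      exact div_le_div_of_nonneg_left hc.le hl20 hl2
    have h6 : (c / 2) ^ k / Real.log X ^ k ≤ V1 (2 * X) ^ k := by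
      rw [← div_pow]
      exact pow_le_pow_left₀ (by positivity) h5 k
    rw [W_eq, hH]
    have h7 : Real.exp (-1) * sing H ≤ Pool.Agent.Y822.PT H (2 * X) := by
      calc Real.exp (-1) * sing H ≤ Real.exp (-1) * (Real.exp 1 * Pool.Agent.Y822.PT H (2 * X)) :=
            mul_le_mul_of_nonneg_left h3 (Real.exp_pos _).le
        _ = Pool.Agent.Y822.PT H (2 * X) := by
            rw [← mul_assoc, ← Real.exp_add, neg_add_cancel, Real.exp_zero, one_mul]
    calc Real.exp (-1) * (c / 2) ^ k * (sing H / Real.log X ^ k) = (Real.exp (-1) * sing H) * ((c / 2) ^ k / Real.log X ^ k) := by ring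
      _ ≤ _ := mul_le_mul h7 h6 (by positivity) hPT
  · -- upper bound
    have h1 := Pool.Agent.Y822.CT_tail H X (by omega) (by
      rw [hH]
      omega)
    rw [hH] at h1
    have hPT := Pool.Agent.Y822.PT_nonneg H X
    have hX0 : (0 : ℝ) < X := by linarith
    have h2 : (1 : ℝ) / 2 ≤ 1 - (k : ℝ) ^ 2 / X := by
      have : (k : ℝ) ^ 2 / X ≤ 1 / 2 := by
        rw [div_le_iff₀ hX0]
        linarith
      linarith
    have h3 : Pool.Agent.Y822.PT H X ≤ 2 * sing H := by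
      have h4 := mul_le_mul_of_nonneg_right h2 hPT
      rw [sing_eq]
      linarith
    have h4 := (hV X hX2).2
    have h5 : V1 X ^ k ≤ C ^ k / Real.log X ^ k := by
      rw [← div_pow]
      exact pow_le_pow_left₀ (V1_nonneg X) h4 k
    rw [W_eq, hH]
    calc Pool.Agent.Y822.PT H X * V1 X ^ k ≤ (2 * sing H) * (C ^ k / Real.log X ^ k) :=
          mul_le_mul h3 h5 (pow_nonneg (V1_nonneg X) k) (by linarith)
      _ = 2 * C ^ k * (sing H / Real.log X ^ k) := by ring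

/-- the primes of Chen's theorem give elements of `tuples` -/
lemma sub_tuples {t X A B : ℕ} {H : Finset ℕ} {a b : ℕ} :
    ((GoodF t (2 * X) (A + a) (B + a) (fun _ => Fc H a) ((a : ℤ) - b)).card : ℝ) ≤ ((tuples t X A B H a b).card : ℝ) := by
  classical
  rw [Nat.cast_le]
  apply card_le_card_of_injOn (fun p => p - a)
  · intro p hp
    rw [mem_coe] at hp ⊢
    unfold GoodF at hp
    rw [mem_filter, mem_Ioc] at hp
    obtain ⟨⟨p1, p2⟩, hpr, hbig, ⟨_, r2, r3⟩, hcl⟩ := hp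
    obtain ⟨n, rfl⟩ : ∃ n, p = n + a := ⟨p - a, by omega⟩
    have hXX : (X : ℝ) ≤ ((2 * X : ℕ) : ℝ) := by
      push_cast
      have : (0 : ℝ) ≤ X := Nat.cast_nonneg X
      linarith
    have hrp : ∀ s : ℝ, 0 ≤ s → (X : ℝ) ^ s ≤ ((2 * X : ℕ) : ℝ) ^ s := fun s hs =>
      Real.rpow_le_rpow (Nat.cast_nonneg X) hXX hs
    have ht0 : (0 : ℝ) ≤ 1 / (t : ℝ) := by positivity
    have hcast : ((a : ℤ) - b) - ((n + a : ℕ) : ℤ) = -((n + b : ℕ) : ℤ) := by
      push_cast
      ring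
    rw [hcast] at r2 r3
    unfold tuples
    show n + a - a ∈ _
    rw [Nat.add_sub_cancel, mem_filter, mem_Ioc]
    refine ⟨⟨by omega, by omega⟩, hpr, ⟨?_, ?_⟩, ?_⟩
    · rwa [Int.natAbs_neg, Int.natAbs_natCast] at r2
    · intro q hq hd
      refine lt_of_le_of_lt (hrp _ (by norm_num)) (r3 q hq ?_)
      rw [dvd_neg]
      exact_mod_cast hd
    · intro h hh q hq hqX hd
      have hqX' : (q : ℝ) ≤ ((2 * X : ℕ) : ℝ) ^ (1 / (t : ℝ)) := hqX.trans (hrp _ ht0)
      by_cases hha : h = a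
      · rw [hha] at hd
        have h1 : q = n + a := (Nat.prime_dvd_prime_iff_eq hq hpr).1 hd
        rw [← h1] at hbig
        linarith
      · apply hcl q hq hqX' ((a : ℤ) - h)
        · unfold Fc
          exact mem_image_of_mem _ (mem_erase.2 ⟨hha, hh⟩)
        · have h2 : ((a : ℤ) - h) - ((n + a : ℕ) : ℤ) = -((n + h : ℕ) : ℤ) := by
            push_cast
            ring
          rw [h2, dvd_neg]
          exact_mod_cast hd
  · intro p hp p' hp' h
    rw [mem_coe] at hp hp'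
    unfold GoodF at hp hp'
    rw [mem_filter, mem_Ioc] at hp hp'
    have h1 := hp.1.1
    have h2 := hp'.1.1
    simp only at h
    omega

lemma tuples_sub {t X A B : ℕ} {H : Finset ℕ} {a b : ℕ} : tuples t X A B H a b ⊆ IS t X A B (Zc H) := by
  classical
  intro n hn
  unfold tuples at hn
  unfold IS
  rw [mem_filter] at hn ⊢
  refine ⟨hn.1, ?_⟩
  intro q hq hqX hmem
  obtain ⟨h, hh, hd⟩ := mem_Zc H hq.pos n hmem
  exact hn.2.2.2 h hh q hq hqX hd

/-- **Lower and upper bound for the tuples in terms of the product `W H X`, and progressions in dense subsets.** -/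
theorem base (k : ℕ) (hk : 2 ≤ k) : ∃ t : ℕ, 1 ≤ t ∧ ∃ c C : ℝ, 0 < c ∧ 0 < C ∧
      ∀ θ : ℝ, 0 < θ → ∃ X₀ : ℕ, ∀ X : ℕ, X₀ ≤ X → ∀ H : Finset ℕ, H.card = k → (∀ h ∈ H, h ≤ X) →
        (∀ p : ℕ, p.Prime → nu H p < p) → ∀ a ∈ H, ∀ b ∈ H, a ≠ b → ∀ A B : ℕ, B ≤ X → θ * X ≤ (B : ℝ) - A →
          c * (((B : ℝ) - A) * W H X) ≤ ((tuples t X A B H a b).card : ℝ) ∧
          ((tuples t X A B H a b).card : ℝ) ≤ C * (((B : ℝ) - A) * W H X) := by
  classical
  obtain ⟨t, ht, cg, hcg, hlow, -⟩ := genF k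
  obtain ⟨Cu, hCu, hup⟩ := int_upper k t (by omega) ht
  obtain ⟨c1, C1, hc1, hC1, X1, hcmp⟩ := compare k
  refine ⟨t, ht, cg * (c1 / C1), Cu, by positivity, hCu, ?_⟩
  intro θ hθ
  obtain ⟨X2, h2⟩ := hlow (θ / 2) (by positivity)
  obtain ⟨X3, h3⟩ := hup θ hθ
  refine ⟨max (max X1 X2) (max X3 1), ?_⟩
  intro X hX H hH hle hadm a ha b hb hab A B hBX hAB
  have g1 : X1 ≤ X := ((le_max_left _ _).trans (le_max_left _ _)).trans hX
  have g2 : X2 ≤ X := ((le_max_right _ _).trans (le_max_left _ _)).trans hX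
  have g3 : X3 ≤ X := ((le_max_left _ _).trans (le_max_right _ _)).trans hX
  have g4 : 1 ≤ X := ((le_max_right _ _).trans (le_max_right _ _)).trans hX
  obtain ⟨k1, k2⟩ := hcmp X g1 H hH hle
  have hX0 : (0 : ℝ) < X := by exact_mod_cast g4
  have hlen : (0 : ℝ) < (B : ℝ) - A := lt_of_lt_of_le (by positivity) hAB
  constructor
  · have h4 := h2 (2 * X) (by omega) (fun _ => Fc H a) ((a : ℤ) - b) (sysF hH hle hadm ha hb hab) (A + a) (B + a)
      (by have := hle a ha; omega) (by push_cast; linarith)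
    have e1 : (((B + a : ℕ) : ℝ)) - ((A + a : ℕ) : ℝ) = (B : ℝ) - A := by push_cast; ring
    rw [e1] at h4
    refine le_trans ?_ (h4.trans (sub_tuples))
    have h5 : c1 / C1 * W H X ≤ W H (2 * X) := by
      calc c1 / C1 * W H X ≤ c1 / C1 * (C1 * (sing H / Real.log X ^ k)) := mul_le_mul_of_nonneg_left k2 (by positivity)
        _ = c1 * (sing H / Real.log X ^ k) := by field_simp
        _ ≤ _ := k1
    calc cg * (c1 / C1) * (((B : ℝ) - A) * W H X) = cg * ((B : ℝ) - A) * (c1 / C1 * W H X) := by ring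
      _ ≤ cg * ((B : ℝ) - A) * VF (fun _ => Fc H a) (2 * X) :=
          mul_le_mul_of_nonneg_left (h5.trans (W_le_VF hadm ha (2 * X))) (by positivity)
  · have h4 := h3 X g3 (Zc H) (sysZ hH hadm) A B hAB
    have h5 : ((tuples t X A B H a b).card : ℝ) ≤ ((IS t X A B (Zc H)).card : ℝ) := by
      exact_mod_cast card_le_card tuples_sub
    refine h5.trans (h4.trans ?_)
    rw [VV_Zc]

end Pool.Agent.Q162.MP
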