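import Pool.Agent.Q162.MP.Ratio

/-!
# Isolated patterns on the scale `ε log X` with the right order of magnitude (helper162)

Theorem `isolated`: for every `k ≥ 2`, all admissible `H ⊆ [0, D]`, `D ≤ ε log X`, all `a ≠ b` in `H`, all intervals `(A, B]` of length
`≥ θ X` in `[0, X]`: the number of the `n ∈ (A, B]` with `n + a` prime, `n + b` a `P₂` with prime factors `> X ^ (1/9)`, all `n + h` free of
primes `≤ X ^ (1/t)` and every other integer at a distance at most `D` from `n` with a prime factor `≤ X ^ (1/t)` is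
`≥ c (B - A) ∏_{p ≤ X} (1 - ν_p / p)`.
-/

set_option autoImplicit false

namespace Pool.Agent.Q162.MP

open Finset Filter
open Pool.Agent.Q253.Thin (SysZ IS int_upper)
open Pool.Agent.Y843.HS (Pr VV Pr_mem Pr_prime)
open Pool.Agent.Y843.HG (V1 V1_bounds)


/-! ## isolated patterns -/

open Classical in
/-- the elements of `tuples` whose pattern is isolated: every other integer at a distance at most `D` from `n` has a prime factor
`≤ X ^ (1/t)` -/
noncomputable def iso (t X A B D : ℕ) (H : Finset ℕ) (a b : ℕ) : Finset ℕ :=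
  (tuples t X A B H a b).filter (fun n => ∀ m : ℕ, |(m : ℤ) - n| ≤ D → (∀ h ∈ H, m ≠ n + h) →
    ∃ q : ℕ, q.Prime ∧ (q : ℝ) ≤ (X : ℝ) ^ (1 / (t : ℝ)) ∧ q ∣ m)

/-- the extra shifts -/
noncomputable def shifts (D : ℕ) (H : Finset ℕ) : Finset ℤ := (Icc (-(D : ℤ)) D).filter (fun s => ∀ h ∈ H, s ≠ (h : ℤ))

lemma cover {t X A B D : ℕ} {H : Finset ℕ} {a b : ℕ} :
    ((tuples t X A B H a b).card : ℝ) ≤ ((iso t X A B D H a b).card : ℝ) + ∑ s ∈ shifts D H, ((IS t X A B (Zs H s)).card : ℝ) := by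
  classical
  have h1 : tuples t X A B H a b ⊆ iso t X A B D H a b ∪ (shifts D H).biUnion (fun s => IS t X A B (Zs H s)) := by
    intro n hn
    by_cases hi : n ∈ iso t X A B D H a b
    · exact mem_union_left _ hi
    apply mem_union_right
    have hn' := hn
    unfold tuples at hn'
    rw [mem_filter] at hn'
    obtain ⟨n1, n2, n3, n4⟩ := hn'
    have h2 : ¬ ∀ m : ℕ, |(m : ℤ) - n| ≤ D → (∀ h ∈ H, m ≠ n + h) →
        ∃ q : ℕ, q.Prime ∧ (q : ℝ) ≤ (X : ℝ) ^ (1 / (t : ℝ)) ∧ q ∣ m := by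
      intro h
      apply hi
      unfold iso
      rw [mem_filter]
      exact ⟨hn, h⟩
    push Not at h2
    obtain ⟨m, hm1, hm2, hm3⟩ := h2
    rw [abs_le] at hm1
    rw [mem_biUnion]
    refine ⟨(m : ℤ) - n, ?_, ?_⟩
    · unfold shifts
      rw [mem_filter, mem_Icc]
      refine ⟨hm1, ?_⟩
      intro h hh he
      apply hm2 h hh
      omega
    · unfold IS
      rw [mem_filter]
      refine ⟨n1, ?_⟩
      intro q hq hqX hmem
      unfold Zs at hmem
      rw [mem_insert] at hmem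
      rcases hmem with hmem | hmem
      · have h3 := (cls_iff _ hq.pos n).1 hmem
        rw [add_sub_cancel] at h3
        exact hm3 q hq hqX (by exact_mod_cast h3)
      · obtain ⟨h, hh, hd⟩ := mem_Zc H hq.pos n hmem
        exact n4 h hh q hq hqX hd
  have h2 := (card_le_card h1).trans (card_union_le _ _)
  have h3 := h2.trans (Nat.add_le_add_left card_biUnion_le _)
  have h4 : ((tuples t X A B H a b).card : ℝ) ≤
      (((iso t X A B D H a b).card + ∑ s ∈ shifts D H, (IS t X A B (Zs H s)).card : ℕ) : ℝ) := by exact_mod_cast h3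
  refine h4.trans (le_of_eq ?_)
  push_cast
  rfl

/-- if the shifts do not miss a class, nothing is left -/
lemma IS_empty {t X A B k : ℕ} {H : Finset ℕ} {s : ℤ} (hH : H.card = k)
    (hX : (k : ℝ) + 1 ≤ (X : ℝ) ^ (1 / (t : ℝ))) {p : ℕ} (hp : p.Prime) (hbad : p ≤ (Zs H s p).card) :
    (IS t X A B (Zs H s)).card = 0 := by
  classical
  rw [card_eq_zero, eq_empty_iff_forall_notMem]
  intro n hn
  unfold IS at hn
  rw [mem_filter] at hn
  have h1 : p ≤ k + 1 := by
    have h2 := Zs_card_le (H := H) (s := s) hp.pos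
    have h3 := nu_le H p
    omega
  have h2 : Zs H s p = range p := by
    apply eq_of_subset_of_card_le
    · intro c hc
      exact mem_range.2 (Zs_lt hp.pos c hc)
    · rw [card_range]
      exact hbad
  apply hn.2 p hp
  · refine le_trans ?_ hX
    exact_mod_cast h1
  · rw [h2, mem_range]
    exact Nat.mod_lt _ hp.pos

/-- **The isolated patterns.** -/
theorem isolated (k : ℕ) (hk : 2 ≤ k) : ∃ t : ℕ, 1 ≤ t ∧ ∃ ε c C : ℝ, 0 < ε ∧ 0 < c ∧ 0 < C ∧
      ∀ θ : ℝ, 0 < θ → ∃ X₀ : ℕ, ∀ X : ℕ, X₀ ≤ X → ∀ D : ℕ, (D : ℝ) ≤ ε * Real.log X → ∀ H : Finset ℕ, H.card = k → (∀ h ∈ H, h ≤ D) →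
        (∀ p : ℕ, p.Prime → nu H p < p) → ∀ a ∈ H, ∀ b ∈ H, a ≠ b → ∀ A B : ℕ, B ≤ X → θ * X ≤ (B : ℝ) - A →
          c * (((B : ℝ) - A) * W H X) ≤ ((iso t X A B D H a b).card : ℝ) ∧
          ((tuples t X A B H a b).card : ℝ) ≤ C * (((B : ℝ) - A) * W H X) := by
  classical
  obtain ⟨t, ht, c, C, hc, hC, hb⟩ := base k hk
  obtain ⟨Cu, hCu, hup⟩ := int_upper (k + 1) t (by omega) ht
  obtain ⟨Cr, hCr, hsum⟩ := sum_rat k (by omega)
  obtain ⟨cv, Cv, hcv, hCv, hV⟩ := V1_bounds
  have ht0 : (0 : ℝ) < t := by exact_mod_cast ht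
  set ε : ℝ := min 1 (c / (2 * (Cu * Cv * Cr))) with hε
  have hε0 : 0 < ε := lt_min one_pos (by positivity)
  have hε1 : Cu * Cv * Cr * ε ≤ c / 2 := by
    calc Cu * Cv * Cr * ε ≤ Cu * Cv * Cr * (c / (2 * (Cu * Cv * Cr))) := mul_le_mul_of_nonneg_left (min_le_right _ _) (by positivity)
      _ = c / 2 := by field_simp
  obtain ⟨X4, h4⟩ := eventually_atTop.1 (((tendsto_rpow_atTop (show (0 : ℝ) < 1 / t by positivity)).comp
    tendsto_natCast_atTop_atTop).eventually_ge_atTop ((k : ℝ) + 1))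
  obtain ⟨X5, h5⟩ := eventually_atTop.1 ((Real.isLittleO_log_id_atTop.bound one_pos).and (eventually_ge_atTop (2 : ℝ)))
  refine ⟨t, ht, ε, c / 2, C, hε0, by positivity, hC, ?_⟩
  intro θ hθ
  obtain ⟨X2, h2⟩ := hb θ hθ
  obtain ⟨X3, h3⟩ := hup θ hθ
  refine ⟨max (max X2 X3) (max X4 (max ⌈X5⌉₊ 3)), ?_⟩
  intro X hX D hD H hH hle hadm a ha b hb' hab A B hBX hAB
  have g2 : X2 ≤ X := ((le_max_left _ _).trans (le_max_left _ _)).trans hX
  have g3 : X3 ≤ X := ((le_max_right _ _).trans (le_max_left _ _)).trans hX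
  have g4 : X4 ≤ X := ((le_max_left _ _).trans (le_max_right _ _)).trans hX
  have g5 : ⌈X5⌉₊ ≤ X := ((le_max_left _ _).trans ((le_max_right _ _).trans (le_max_right _ _))).trans hX
  have g6 : 3 ≤ X := ((le_max_right _ _).trans ((le_max_right _ _).trans (le_max_right _ _))).trans hX
  have hXr : (3 : ℝ) ≤ X := by exact_mod_cast g6
  have hlX : 0 < Real.log X := Real.log_pos (by linarith)
  have hlX' : Real.log X ≤ X := by
    have := (h5 X (Nat.ceil_le.1 g5)).1
    rw [one_mul, Real.norm_of_nonneg hlX.le] at this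
    simpa using this
  have hDX : D ≤ X := by
    have : (D : ℝ) ≤ X := by
      calc (D : ℝ) ≤ ε * Real.log X := hD
        _ ≤ 1 * Real.log X := mul_le_mul_of_nonneg_right (min_le_left _ _) hlX.le
        _ ≤ X := by rw [one_mul]; exact hlX'
    exact_mod_cast this
  obtain ⟨l1, l2⟩ := h2 X g2 H hH (fun h hh => (hle h hh).trans hDX) hadm a ha b hb' hab A B hBX hAB
  refine ⟨?_, l2⟩
  have hlen : (0 : ℝ) < (B : ℝ) - A := lt_of_lt_of_le (by positivity) hAB
  have hWW : 0 ≤ W H X := by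
    unfold W
    exact prod_nonneg (fun p hp => fac_nonneg hadm (Pr_prime hp))
  have hk1 := h4 X g4
  simp only [Function.comp_apply] at hk1
  have hs1 : ∀ s ∈ shifts D H, ((IS t X A B (Zs H s)).card : ℝ) ≤
      (Cu * (((B : ℝ) - A) * (W H X * V1 X))) * ∏ h ∈ H, Pool.Agent.H646.rat (s - h).natAbs := by
    intro s hs
    unfold shifts at hs
    rw [mem_filter] at hs
    have hprod0 : 0 ≤ ∏ h ∈ H, Pool.Agent.H646.rat (s - h).natAbs := prod_nonneg (fun h _ => rat_nonneg _)
    by_cases hloc : ∀ p : ℕ, p.Prime → (Zs H s p).card < p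
    · have hsys : SysZ (k + 1) (Zs H s) := by
        refine ⟨?_, hloc, fun p hp => Zs_lt hp.pos⟩
        intro p hp
        have h6 := Zs_card_le (H := H) (s := s) hp.pos
        have h7 := nu_le H p
        omega
      refine (h3 X g3 (Zs H s) hsys A B hAB).trans ?_
      have h6 := VV_Zs hadm hs.2 X hloc
      calc Cu * (((B : ℝ) - A) * VV (Zs H s) 0 X) ≤
            Cu * (((B : ℝ) - A) * (W H X * V1 X * ∏ h ∈ H, Pool.Agent.H646.rat (s - h).natAbs)) := by gcongr
        _ = _ := by ring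
    · push Not at hloc
      obtain ⟨p, hp, hbad⟩ := hloc
      rw [IS_empty hH hk1 hp hbad, Nat.cast_zero]
      have := V1_nonneg X
      positivity
  have hs2 := sum_le_sum hs1
  rw [← mul_sum] at hs2
  have hs3 := hsum D H hH hle
  have hs4 : Cu * (((B : ℝ) - A) * (W H X * V1 X)) * ∑ s ∈ shifts D H, ∏ h ∈ H, Pool.Agent.H646.rat (s - h).natAbs ≤
      c / 2 * (((B : ℝ) - A) * W H X) := by
    have hV1 := (hV X (by omega)).2
    calc Cu * (((B : ℝ) - A) * (W H X * V1 X)) * ∑ s ∈ shifts D H, ∏ h ∈ H, Pool.Agent.H646.rat (s - h).natAbs ≤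
          Cu * (((B : ℝ) - A) * (W H X * (Cv / Real.log X))) * (Cr * (ε * Real.log X)) := by
            have e1 : ∑ s ∈ shifts D H, ∏ h ∈ H, Pool.Agent.H646.rat (s - h).natAbs ≤ Cr * (ε * Real.log X) :=
              hs3.trans (mul_le_mul_of_nonneg_left hD hCr.le)
            have e2 : 0 ≤ ∑ s ∈ shifts D H, ∏ h ∈ H, Pool.Agent.H646.rat (s - h).natAbs :=
              sum_nonneg (fun s _ => prod_nonneg (fun h _ => rat_nonneg _))
            have e3 : Cu * (((B : ℝ) - A) * (W H X * V1 X)) ≤ Cu * (((B : ℝ) - A) * (W H X * (Cv / Real.log X))) := by gcongr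
            exact mul_le_mul e3 e1 e2 (by positivity)
      _ = (Cu * Cv * Cr * ε) * (((B : ℝ) - A) * W H X) := by
            field_simp
      _ ≤ _ := mul_le_mul_of_nonneg_right hε1 (by positivity)
  have hcov := cover (t := t) (X := X) (A := A) (B := B) (D := D) (H := H) (a := a) (b := b)
  linarith

end Pool.Agent.Q162.MP
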