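import Pool.Agent.Q162.MP.Iso

/-!
# Progressions: products and their mean value over the difference (helper162)
-/

set_option autoImplicit false

namespace Pool.Agent.Q162.MP

open Finset Filter
open Pool.Agent.Q253.Thin (SysZ IS int_upper)
open Pool.Agent.Y843.HS (Pr VV Pr_mem Pr_prime)
open Pool.Agent.Y843.HG (V1 V1_bounds)


/-! ## progressions -/

/-- the progression `0, d, …, (k - 1) d` -/
def prog (k d : ℕ) : Finset ℕ := (range k).image (fun j => j * d)

lemma mem_prog {k d h : ℕ} : h ∈ prog k d ↔ ∃ j < k, j * d = h := by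
  unfold prog
  rw [mem_image]
  constructor
  · rintro ⟨i, hi, h⟩
    exact ⟨i, mem_range.1 hi, h⟩
  · rintro ⟨i, hi, h⟩
    exact ⟨i, mem_range.2 hi, h⟩

lemma prog_card {k d : ℕ} (hd : 1 ≤ d) : (prog k d).card = k := by
  unfold prog
  rw [card_image_of_injective _ (fun x y h => Nat.eq_of_mul_eq_mul_right (by omega) h), card_range]

lemma nu_dvd {k d p : ℕ} (hk : 1 ≤ k) (h : p ∣ d) : nu (prog k d) p = 1 := by
  unfold nu
  rw [card_eq_one]
  refine ⟨0, ?_⟩
  ext x
  rw [mem_image, mem_singleton]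
  constructor
  · rintro ⟨y, hy, rfl⟩
    obtain ⟨j, _, rfl⟩ := mem_prog.1 hy
    exact Nat.mod_eq_zero_of_dvd (Dvd.dvd.mul_left h j)
  · rintro rfl
    exact ⟨0, mem_prog.2 ⟨0, by omega, by simp⟩, Nat.zero_mod _⟩

lemma nu_ndvd {k d p : ℕ} (hp : p.Prime) (hkp : k ≤ p) (h : ¬ p ∣ d) : nu (prog k d) p = k := by
  unfold nu prog
  rw [image_image, card_image_of_injOn, card_range]
  intro i hi j hj hij
  rw [coe_range, Set.mem_Iio] at hi hj
  simp only [Function.comp_apply] at hij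
  have h1 : i * d ≡ j * d [MOD p] := hij
  have hcop : Nat.gcd p d = 1 := (Nat.Prime.coprime_iff_not_dvd hp).2 h
  have h2 : i ≡ j [MOD p] := Nat.ModEq.cancel_right_of_coprime hcop h1
  exact h2.eq_of_lt_of_lt (lt_of_lt_of_le hi hkp) (lt_of_lt_of_le hj hkp)

lemma prog_adm {k d : ℕ} (hk : 1 ≤ k) (h : ∀ p : ℕ, p.Prime → p ≤ k → p ∣ d) : ∀ p : ℕ, p.Prime → nu (prog k d) p < p := by
  intro p hp
  by_cases hpk : p ≤ k
  · rw [nu_dvd hk (h p hp hpk)]
    exact hp.one_lt
  · by_cases hd : p ∣ d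
    · rw [nu_dvd hk hd]
      exact hp.one_lt
    · rw [nu_ndvd hp (by omega) hd]
      omega

/-- a progression of length `k ≥ q` whose difference is prime to `q` contains a multiple of `q` -/
lemma hit {q k d : ℕ} (hq : q.Prime) (hqk : q ≤ k) (hqd : ¬ q ∣ d) (n : ℕ) : ∃ j < k, q ∣ n + j * d := by
  have hF : Fact q.Prime := ⟨hq⟩
  have hd0 : (d : ZMod q) ≠ 0 := by
    intro h0
    exact hqd ((ZMod.natCast_eq_zero_iff d q).1 h0)
  refine ⟨(-(n : ZMod q) * (d : ZMod q)⁻¹).val, lt_of_lt_of_le (ZMod.val_lt _) hqk, ?_⟩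
  rw [← ZMod.natCast_eq_zero_iff]
  push_cast
  rw [ZMod.natCast_zmod_val, mul_assoc, inv_mul_cancel₀ hd0, mul_one, add_neg_cancel]

/-- the upper bound for the product of a progression -/
lemma W_prog_le {k d : ℕ} (hk : 1 ≤ k) (hd : 1 ≤ d) (h : ∀ p : ℕ, p.Prime → p ≤ k → p ∣ d) (y : ℕ) :
    W (prog k d) y ≤ V1 y ^ k * Pool.Agent.H646.rat d ^ (k - 1) := by
  have h1f : ∀ p ∈ Pr 0 y, 0 ≤ 1 - 1 / (p : ℝ) := by
    intro p hp
    have hp0 : (1 : ℝ) < p := by exact_mod_cast (Pr_prime hp).one_lt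
    rw [sub_nonneg, div_le_one (by linarith)]
    exact hp0.le
  have hstep : W (prog k d) y ≤ ∏ p ∈ Pr 0 y, ((1 - 1 / (p : ℝ)) ^ k * gf d p ^ (k - 1)) := by
    unfold W
    apply Finset.prod_le_prod
    · intro p hp
      have hp0 : (0 : ℝ) < p := by exact_mod_cast (Pr_prime hp).pos
      rw [sub_nonneg, div_le_one hp0]
      exact_mod_cast (prog_adm hk h p (Pr_prime hp)).le
    · intro p hp
      have hpp := Pr_prime hp
      have hp2 : (2 : ℝ) ≤ p := by exact_mod_cast hpp.two_le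
      have h3 : 1 / (p : ℝ) ≤ 1 / 2 := one_div_le_one_div_of_le (by norm_num) hp2
      by_cases hpd : p ∣ d
      · rw [nu_dvd hk hpd]
        have h4 : gf d p = (1 - 1 / (p : ℝ))⁻¹ := by
          unfold gf
          rw [if_pos (by exact_mod_cast hpd)]
        have h5 : (1 - 1 / (p : ℝ)) ≠ 0 := by linarith
        rw [h4]
        obtain ⟨r, rfl⟩ : ∃ r, k = r + 1 := ⟨k - 1, by omega⟩
        rw [Nat.add_sub_cancel, pow_succ, inv_pow]
        have h6 : (1 - 1 / (p : ℝ)) ^ r ≠ 0 := pow_ne_zero _ h5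
        apply le_of_eq
        rw [Nat.cast_one, mul_comm ((1 - 1 / (p : ℝ)) ^ r) _, mul_assoc, mul_inv_cancel₀ h6, mul_one]
      · have hkp : k < p := by
          by_contra hcon
          exact hpd (h p hpp (by omega))
        rw [nu_ndvd hpp hkp.le hpd]
        have h4 : gf d p = 1 := by
          unfold gf
          rw [if_neg]
          exact_mod_cast hpd
        rw [h4, one_pow, mul_one]
        have h5 := one_add_mul_le_pow (a := -(1 / (p : ℝ))) (by linarith) k
        calc 1 - (k : ℝ) / p = 1 + k * (-(1 / (p : ℝ))) := by ring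
          _ ≤ _ := h5
          _ = _ := by ring
  refine hstep.trans ?_
  rw [prod_mul_distrib, prod_pow, prod_pow]
  have h6 : ∏ p ∈ Pr 0 y, gf d p ≤ Pool.Agent.H646.rat d := by
    have := prod_gf_le (m := (d : ℤ)) (by exact_mod_cast (by omega : d ≠ 0)) y
    rwa [Int.natAbs_natCast] at this
  have h7 : 0 ≤ ∏ p ∈ Pr 0 y, gf d p := prod_nonneg (fun p hp => by linarith [gf_ge_one (d : ℤ) (Pr_prime hp)])
  apply mul_le_mul_of_nonneg_left (pow_le_pow_left₀ h7 h6 _)
  exact pow_nonneg (prod_nonneg h1f) k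

lemma V1_nonneg' (y : ℕ) : 0 ≤ V1 y := V1_nonneg y

open Classical in
/-- the differences up to `N` divisible by all primes `≤ k` -/
noncomputable def diffs (k N : ℕ) : Finset ℕ := (Icc 1 N).filter (fun d => ∀ p : ℕ, p.Prime → p ≤ k → p ∣ d)

/-- the sum of the products over all differences -/
lemma sum_prog (k : ℕ) (hk : 1 ≤ k) : ∃ C : ℝ, 0 < C ∧ ∀ X : ℕ, 2 ≤ X → ∀ N : ℕ,
    ∑ d ∈ diffs k N, W (prog k d) X ≤ C * (N / Real.log X ^ k) := by
  classical
  obtain ⟨C, hC, hrat⟩ := Pool.Agent.H646.MomentM.rat_moment (k - 1)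
  obtain ⟨cv, Cv, hcv, hCv, hV⟩ := V1_bounds
  refine ⟨Cv ^ k * C, by positivity, ?_⟩
  intro X hX N
  have hlX : 0 < Real.log X := Real.log_pos (by exact_mod_cast (by omega : 1 < X))
  calc ∑ d ∈ diffs k N, W (prog k d) X ≤ ∑ d ∈ diffs k N, V1 X ^ k * Pool.Agent.H646.rat d ^ (k - 1) := by
          apply sum_le_sum
          intro d hd
          unfold diffs at hd
          rw [mem_filter, mem_Icc] at hd
          exact W_prog_le hk hd.1.1 hd.2 X
    _ ≤ ∑ d ∈ Icc 1 N, V1 X ^ k * Pool.Agent.H646.rat d ^ (k - 1) :=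
          sum_le_sum_of_subset_of_nonneg (filter_subset _ _)
            (fun d _ _ => mul_nonneg (pow_nonneg (V1_nonneg X) k) (pow_nonneg (rat_nonneg d) _))
    _ = V1 X ^ k * ∑ d ∈ Icc 1 N, Pool.Agent.H646.rat d ^ (k - 1) := by rw [mul_sum]
    _ ≤ (Cv / Real.log X) ^ k * (C * N) := by
          apply mul_le_mul
          · exact pow_le_pow_left₀ (V1_nonneg X) (hV X hX).2 k
          · exact hrat N
          · exact sum_nonneg (fun d _ => pow_nonneg (rat_nonneg d) _)
          · positivity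
    _ = Cv ^ k * C * (N / Real.log X ^ k) := by
          rw [div_pow]
          ring

/-- the number of the differences -/
lemma diffs_card (k : ℕ) : ∃ P : ℕ, 1 ≤ P ∧ ∀ N : ℕ, N / P ≤ (diffs k N).card := by
  classical
  refine ⟨∏ p ∈ Pr 0 k, p, prod_pos (fun p hp => (Pr_prime hp).pos), ?_⟩
  intro N
  set P : ℕ := ∏ p ∈ Pr 0 k, p with hP
  have hP0 : 0 < P := prod_pos (fun p hp => (Pr_prime hp).pos)
  have h1 : (Icc 1 (N / P)).image (fun m => P * m) ⊆ diffs k N := by
    intro d hd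
    rw [mem_image] at hd
    obtain ⟨m, hm, rfl⟩ := hd
    rw [mem_Icc] at hm
    unfold diffs
    rw [mem_filter, mem_Icc]
    refine ⟨⟨Nat.mul_pos hP0 hm.1, ?_⟩, ?_⟩
    · calc P * m ≤ P * (N / P) := Nat.mul_le_mul_left P hm.2
        _ ≤ N := Nat.mul_div_le N P
    · intro p hp hpk
      apply Dvd.dvd.mul_right
      rw [hP]
      exact dvd_prod_of_mem (fun p => p) (Pr_mem.2 ⟨⟨hp.pos, hpk⟩, hp⟩)
  have h2 := card_le_card h1
  rw [card_image_of_injective _ (fun x y h => Nat.eq_of_mul_eq_mul_left hP0 h), Nat.card_Icc, Nat.add_sub_cancel] at h2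
  exact h2

end Pool.Agent.Q162.MP
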