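import Pool.Agent.Q162.MP.Base
import Pool.Agent.H646.Moment

/-!
# The product with one more shift, and its mean value over the extra shift (helper162)
-/

set_option autoImplicit false

namespace Pool.Agent.Q162.MP

open Finset Filter
open Pool.Agent.Q253.Thin (SysZ IS int_upper)
open Pool.Agent.Y843.HS (Pr VV Pr_mem Pr_prime)
open Pool.Agent.Y843.HG (V1 V1_bounds)

/-! ## one more shift -/

/-- the class of the `n` with `q ∣ n + s` -/
def cls (s : ℤ) (q : ℕ) : ℕ := ((-s) % (q : ℤ)).toNat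

lemma cls_lt (s : ℤ) {q : ℕ} (hq : 0 < q) : cls s q < q := by
  have h1 : (0 : ℤ) < q := by exact_mod_cast hq
  have h2 := Int.emod_lt_of_pos (-s) h1
  have h3 := Int.emod_nonneg (-s) h1.ne'
  unfold cls
  omega

lemma cls_iff (s : ℤ) {q : ℕ} (hq : 0 < q) (n : ℕ) : n % q = cls s q ↔ (q : ℤ) ∣ (n : ℤ) + s := by
  have h1 : (0 : ℤ) < q := by exact_mod_cast hq
  have h3 := Int.emod_nonneg (-s) h1.ne'
  have h4 : (n : ℤ) + s = n - (-s) := by ring
  rw [h4, ← Int.emod_eq_emod_iff_emod_sub_eq_zero.trans Int.dvd_iff_emod_eq_zero.symm]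
  unfold cls
  constructor
  · intro h
    have h5 : ((n % q : ℕ) : ℤ) = ((-s) % (q : ℤ)) := by rw [h]; omega
    rw [← h5]
    push_cast
    rfl
  · intro h
    have h5 : ((n % q : ℕ) : ℤ) = (n : ℤ) % q := by push_cast; rfl
    omega

/-- the classes of `-h`, `h ∈ H`, and of `-s` -/
def Zs (H : Finset ℕ) (s : ℤ) (q : ℕ) : Finset ℕ := insert (cls s q) (Zc H q)

lemma cls_mem {H : Finset ℕ} {s : ℤ} {q : ℕ} (hq : 0 < q) (h : cls s q ∈ Zc H q) : ∃ h ∈ H, (q : ℤ) ∣ s - h := by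
  have h1 : cls s q % q = cls s q := Nat.mod_eq_of_lt (cls_lt s hq)
  obtain ⟨h, hh, hd⟩ := mem_Zc H hq (cls s q) (by rwa [h1])
  refine ⟨h, hh, ?_⟩
  have h2 := (cls_iff s hq (cls s q)).1 h1
  have h3 : (q : ℤ) ∣ (cls s q : ℤ) + h := by exact_mod_cast hd
  have h4 := dvd_sub h2 h3
  rwa [add_sub_add_left_eq_sub] at h4

lemma Zs_lt {H : Finset ℕ} {s : ℤ} {q : ℕ} (hq : 0 < q) : ∀ c ∈ Zs H s q, c < q := by
  intro c hc
  unfold Zs at hc
  rw [mem_insert] at hc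
  rcases hc with hc | hc
  · rw [hc]
    exact cls_lt s hq
  · unfold Zc at hc
    rw [mem_image] at hc
    obtain ⟨r, _, rfl⟩ := hc
    exact Nat.mod_lt _ hq

lemma Zs_card_le {H : Finset ℕ} {s : ℤ} {q : ℕ} (hq : 0 < q) : (Zs H s q).card ≤ nu H q + 1 := by
  unfold Zs
  rw [← Zc_card H hq]
  exact card_insert_le _ _

lemma Zs_card_ge {H : Finset ℕ} {s : ℤ} {q : ℕ} (hq : 0 < q) : nu H q ≤ (Zs H s q).card := by
  unfold Zs
  rw [← Zc_card H hq]
  exact card_le_card (subset_insert _ _)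

/-- the factor of the difference `m` at `p` -/
noncomputable def gf (m : ℤ) (p : ℕ) : ℝ := if (p : ℤ) ∣ m then (1 - 1 / (p : ℝ))⁻¹ else 1

lemma inv_ge_one {p : ℕ} (hp : p.Prime) : 1 ≤ (1 - 1 / (p : ℝ))⁻¹ := by
  have h2 : (2 : ℝ) ≤ p := by exact_mod_cast hp.two_le
  have h3 : 1 / (p : ℝ) ≤ 1 / 2 := one_div_le_one_div_of_le (by norm_num) h2
  have h4 : 0 ≤ 1 / (p : ℝ) := by positivity
  exact (one_le_inv₀ (by linarith)).2 (by linarith)

lemma prod_ge_one {ι : Type*} {S : Finset ι} {f : ι → ℝ} (h : ∀ i ∈ S, 1 ≤ f i) : 1 ≤ ∏ i ∈ S, f i :=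
  Finset.prod_induction f (fun x => 1 ≤ x) (fun _ _ ha hb => one_le_mul_of_one_le_of_one_le ha hb) le_rfl h

lemma prod_mono_set {ι : Type*} [DecidableEq ι] {S T : Finset ι} {f : ι → ℝ} (hST : S ⊆ T) (h : ∀ i ∈ T, 1 ≤ f i) :
    ∏ i ∈ S, f i ≤ ∏ i ∈ T, f i := by
  rw [← prod_sdiff hST]
  have h1 : 1 ≤ ∏ i ∈ T \ S, f i := prod_ge_one (fun i hi => h i (mem_sdiff.1 hi).1)
  have h2 : 1 ≤ ∏ i ∈ S, f i := prod_ge_one (fun i hi => h i (hST hi))
  exact le_mul_of_one_le_left (by linarith) h1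

lemma gf_ge_one (m : ℤ) {p : ℕ} (hp : p.Prime) : 1 ≤ gf m p := by
  unfold gf
  split_ifs
  · exact inv_ge_one hp
  · exact le_rfl

/-- the factor at `p` -/
lemma factor {H : Finset ℕ} {s : ℤ} {p : ℕ} (hp : p.Prime) (hadm : nu H p < p) :
    1 - ((Zs H s p).card : ℝ) / p ≤ (1 - (nu H p : ℝ) / p) * (1 - 1 / (p : ℝ)) * ∏ h ∈ H, gf (s - h) p := by
  have h2 : (2 : ℝ) ≤ p := by exact_mod_cast hp.two_le
  have hp0 : (0 : ℝ) < p := by linarith
  have h3 : 1 / (p : ℝ) ≤ 1 / 2 := one_div_le_one_div_of_le (by norm_num) h2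
  have h30 : 0 ≤ 1 / (p : ℝ) := by positivity
  have hnu : (nu H p : ℝ) / p ≤ 1 := by
    rw [div_le_one hp0]
    exact_mod_cast hadm.le
  have hnu0 : 0 ≤ (nu H p : ℝ) / p := by positivity
  have hprod1 : 1 ≤ ∏ h ∈ H, gf (s - h) p := prod_ge_one (fun h _ => gf_ge_one _ hp)
  by_cases hc : cls s p ∈ Zc H p
  · obtain ⟨h, hh, hd⟩ := cls_mem hp.pos hc
    have h4 : (1 - 1 / (p : ℝ))⁻¹ ≤ ∏ h ∈ H, gf (s - h) p := by
      rw [← mul_prod_erase H _ hh]
      have h5 : gf (s - h) p = (1 - 1 / (p : ℝ))⁻¹ := by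
        unfold gf
        rw [if_pos hd]
      rw [h5]
      have h6 : 1 ≤ ∏ x ∈ H.erase h, gf (s - x) p := prod_ge_one (fun x _ => gf_ge_one _ hp)
      exact le_mul_of_one_le_right (by linarith [inv_ge_one hp]) h6
    have h5 : 1 ≤ (1 - 1 / (p : ℝ)) * ∏ h ∈ H, gf (s - h) p := by
      calc (1 : ℝ) = (1 - 1 / (p : ℝ)) * (1 - 1 / (p : ℝ))⁻¹ := by
            rw [mul_inv_cancel₀]
            linarith
        _ ≤ _ := mul_le_mul_of_nonneg_left h4 (by linarith)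
    have h6 : (nu H p : ℝ) / p ≤ ((Zs H s p).card : ℝ) / p := by
      apply div_le_div_of_nonneg_right _ hp0.le
      exact_mod_cast Zs_card_ge hp.pos
    rw [mul_assoc]
    calc 1 - ((Zs H s p).card : ℝ) / p ≤ 1 - (nu H p : ℝ) / p := by linarith
      _ ≤ _ := le_mul_of_one_le_right (by linarith) h5
  · have h4 : (Zs H s p).card = nu H p + 1 := by
      unfold Zs
      rw [card_insert_of_notMem hc, Zc_card H hp.pos]
    have h5 : 1 - ((Zs H s p).card : ℝ) / p ≤ (1 - (nu H p : ℝ) / p) * (1 - 1 / (p : ℝ)) := by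
      rw [h4]
      push_cast
      rw [add_div]
      nlinarith [mul_nonneg hnu0 h30]
    refine h5.trans (le_mul_of_one_le_right ?_ hprod1)
    exact mul_nonneg (by linarith) (by linarith)

lemma rat_eq {m : ℕ} (hm : 0 < m) : Pool.Agent.H646.rat m = ∏ p ∈ m.primeFactors, (1 - 1 / (p : ℝ))⁻¹ := by
  have hn0 : (0 : ℝ) < m := by exact_mod_cast hm
  have h1 : (Nat.totient m : ℝ) = m * ∏ p ∈ m.primeFactors, (1 - (p : ℝ)⁻¹) := by
    have := Nat.totient_eq_mul_prod_factors m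
    have h2 : ((Nat.totient m : ℚ) : ℝ) = ((m * ∏ p ∈ m.primeFactors, (1 - (p : ℚ)⁻¹) : ℚ) : ℝ) := by
      rw [this]
    push_cast at h2
    exact h2
  unfold Pool.Agent.H646.rat
  rw [h1, ← div_div, div_self hn0.ne', one_div, ← Finset.prod_inv_distrib]
  apply prod_congr rfl
  intro p _
  rw [one_div]

lemma prod_gf_le {m : ℤ} (hm : m ≠ 0) (y : ℕ) : ∏ p ∈ Pr 0 y, gf m p ≤ Pool.Agent.H646.rat m.natAbs := by
  have hm0 : 0 < m.natAbs := Int.natAbs_pos.2 hm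
  rw [rat_eq hm0]
  have h1 : ∏ p ∈ Pr 0 y, gf m p = ∏ p ∈ (Pr 0 y).filter (fun p : ℕ => (p : ℤ) ∣ m), (1 - 1 / (p : ℝ))⁻¹ := by
    rw [prod_filter]
    rfl
  rw [h1]
  apply prod_mono_set
  · intro p hp
    rw [mem_filter] at hp
    rw [Nat.mem_primeFactors]
    exact ⟨Pr_prime hp.1, Int.natCast_dvd.1 hp.2, hm0.ne'⟩
  · intro p hp
    exact inv_ge_one (Nat.prime_of_mem_primeFactors hp)

/-- the product with one more shift -/
lemma VV_Zs {H : Finset ℕ} {s : ℤ} (hadm : ∀ p : ℕ, p.Prime → nu H p < p) (hs : ∀ h ∈ H, s ≠ (h : ℤ)) (y : ℕ)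
    (hloc : ∀ p : ℕ, p.Prime → (Zs H s p).card < p) :
    VV (Zs H s) 0 y ≤ W H y * V1 y * ∏ h ∈ H, Pool.Agent.H646.rat (s - h).natAbs := by
  have hfac : ∀ p ∈ Pr 0 y, 0 ≤ 1 - (nu H p : ℝ) / p := by
    intro p hp
    have hp0 : (0 : ℝ) < p := by exact_mod_cast (Pr_prime hp).pos
    rw [sub_nonneg, div_le_one hp0]
    exact_mod_cast (hadm p (Pr_prime hp)).le
  have h1f : ∀ p ∈ Pr 0 y, 0 ≤ 1 - 1 / (p : ℝ) := by
    intro p hp
    have hp0 : (1 : ℝ) < p := by exact_mod_cast (Pr_prime hp).one_lt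
    rw [sub_nonneg, div_le_one (by linarith)]
    exact hp0.le
  have h1 : VV (Zs H s) 0 y ≤ ∏ p ∈ Pr 0 y, ((1 - (nu H p : ℝ) / p) * (1 - 1 / (p : ℝ)) * ∏ h ∈ H, gf (s - h) p) := by
    unfold VV
    apply Finset.prod_le_prod
    · intro p hp
      have hp0 : (0 : ℝ) < p := by exact_mod_cast (Pr_prime hp).pos
      rw [sub_nonneg, div_le_one hp0]
      exact_mod_cast (hloc p (Pr_prime hp)).le
    · intro p hp
      exact factor (Pr_prime hp) (hadm p (Pr_prime hp))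
  refine h1.trans ?_
  rw [prod_mul_distrib, prod_mul_distrib, Finset.prod_comm]
  apply mul_le_mul_of_nonneg_left
  · apply Finset.prod_le_prod
    · intro h _
      exact prod_nonneg (fun p hp => by linarith [gf_ge_one (s - h) (Pr_prime hp)])
    · intro h hh
      apply prod_gf_le
      intro h0
      exact hs h hh (by linarith)
  · exact mul_nonneg (prod_nonneg hfac) (prod_nonneg h1f)

lemma rat_nonneg (m : ℕ) : 0 ≤ Pool.Agent.H646.rat m := by
  unfold Pool.Agent.H646.rat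
  positivity

/-- a product of `k` nonnegative numbers is at most the sum of their `k`-th powers -/
lemma prod_le_sum_pow {H : Finset ℕ} (hne : H.Nonempty) (f : ℕ → ℝ) (hf : ∀ h ∈ H, 0 ≤ f h) : ∏ h ∈ H, f h ≤ ∑ h ∈ H, f h ^ H.card := by
  obtain ⟨m, hm, hmax⟩ := exists_max_image H f hne
  calc ∏ h ∈ H, f h ≤ ∏ _h ∈ H, f m := Finset.prod_le_prod hf hmax
    _ = f m ^ H.card := by rw [prod_const]
    _ ≤ _ := single_le_sum (f := fun h => f h ^ H.card) (fun h hh => pow_nonneg (hf h hh) _) hm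

/-- the sum over the extra shift -/
lemma sum_rat (k : ℕ) (hk : 1 ≤ k) : ∃ C : ℝ, 0 < C ∧ ∀ D : ℕ, ∀ H : Finset ℕ, H.card = k → (∀ h ∈ H, h ≤ D) →
    ∑ s ∈ (Icc (-(D : ℤ)) D).filter (fun s => ∀ h ∈ H, s ≠ (h : ℤ)), ∏ h ∈ H, Pool.Agent.H646.rat (s - h).natAbs ≤ C * D := by
  obtain ⟨C, hC, hrat⟩ := Pool.Agent.H646.MomentM.rat_moment k
  refine ⟨k * (2 * (C * 2)), by positivity, ?_⟩
  intro D H hH hle
  have hne : H.Nonempty := by
    rw [← card_pos]
    omega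
  have h1 : ∀ h ∈ H, ∑ s ∈ (Icc (-(D : ℤ)) D).filter (fun s => ∀ h ∈ H, s ≠ (h : ℤ)), Pool.Agent.H646.rat (s - h).natAbs ^ k ≤
      2 * (C * 2) * D := by
    intro h hh
    have hhD := hle h hh
    have h2 := hrat (2 * D)
    have h3 : ∑ s ∈ (Icc (-(D : ℤ)) D).filter (fun s => ∀ h ∈ H, s ≠ (h : ℤ)), Pool.Agent.H646.rat (s - h).natAbs ^ k ≤
        ∑ s ∈ (Icc (-(2 * D : ℕ) : ℤ) (2 * D : ℕ)).filter (fun s => s ≠ 0), Pool.Agent.H646.rat s.natAbs ^ k := by
      rw [← sum_image (f := fun m : ℤ => Pool.Agent.H646.rat m.natAbs ^ k) (g := fun s : ℤ => s - h)]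
      · apply sum_le_sum_of_subset_of_nonneg
        · intro m hm
          rw [mem_image] at hm
          obtain ⟨s, hs, rfl⟩ := hm
          rw [mem_filter, mem_Icc] at hs
          rw [mem_filter, mem_Icc]
          have := hs.2 h hh
          push_cast
          refine ⟨⟨by omega, by omega⟩, by omega⟩
        · intro m _ _
          exact pow_nonneg (rat_nonneg _) k
      · intro x _ y _ hxy
        simp only at hxy
        omega
    refine h3.trans ?_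
    have h4 : ∑ s ∈ (Icc (-(2 * D : ℕ) : ℤ) (2 * D : ℕ)).filter (fun s => s ≠ 0), Pool.Agent.H646.rat s.natAbs ^ k ≤
        ∑ n ∈ Icc 1 (2 * D), (Pool.Agent.H646.rat n ^ k + Pool.Agent.H646.rat n ^ k) := by
      rw [sum_add_distrib]
      have e1 : (Icc (-(2 * D : ℕ) : ℤ) (2 * D : ℕ)).filter (fun s => s ≠ 0) ⊆
          (Icc 1 (2 * D)).image (fun n : ℕ => (n : ℤ)) ∪ (Icc 1 (2 * D)).image (fun n : ℕ => -(n : ℤ)) := by
        intro m hm
        rw [mem_filter, mem_Icc] at hm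
        rw [mem_union, mem_image, mem_image]
        rcases lt_or_gt_of_ne hm.2 with h0 | h0
        · right
          refine ⟨m.natAbs, ?_, by omega⟩
          rw [mem_Icc]
          push_cast at hm
          omega
        · left
          refine ⟨m.natAbs, ?_, by omega⟩
          rw [mem_Icc]
          push_cast at hm
          omega
      refine (sum_le_sum_of_subset_of_nonneg e1 (fun m _ _ => pow_nonneg (rat_nonneg _) k)).trans ?_
      have e2 := sum_union_inter (s₁ := (Icc 1 (2 * D)).image (fun n : ℕ => (n : ℤ)))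
        (s₂ := (Icc 1 (2 * D)).image (fun n : ℕ => -(n : ℤ))) (f := fun m : ℤ => Pool.Agent.H646.rat m.natAbs ^ k)
      have e3 : 0 ≤ ∑ m ∈ (Icc 1 (2 * D)).image (fun n : ℕ => (n : ℤ)) ∩ (Icc 1 (2 * D)).image (fun n : ℕ => -(n : ℤ)),
          Pool.Agent.H646.rat m.natAbs ^ k := sum_nonneg (fun m _ => pow_nonneg (rat_nonneg _) k)
      have e4 : ∑ m ∈ (Icc 1 (2 * D)).image (fun n : ℕ => (n : ℤ)), Pool.Agent.H646.rat m.natAbs ^ k =
          ∑ n ∈ Icc 1 (2 * D), Pool.Agent.H646.rat n ^ k := by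
        rw [sum_image (fun x _ y _ hxy => by simpa using hxy)]
        rfl
      have e5 : ∑ m ∈ (Icc 1 (2 * D)).image (fun n : ℕ => -(n : ℤ)), Pool.Agent.H646.rat m.natAbs ^ k =
          ∑ n ∈ Icc 1 (2 * D), Pool.Agent.H646.rat n ^ k := by
        rw [sum_image (fun x _ y _ hxy => by simpa using hxy)]
        apply sum_congr rfl
        intro n _
        rw [Int.natAbs_neg, Int.natAbs_natCast]
      rw [e4, e5] at e2
      linarith
    refine h4.trans ?_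
    rw [sum_add_distrib]
    push_cast at h2
    linarith
  calc ∑ s ∈ (Icc (-(D : ℤ)) D).filter (fun s => ∀ h ∈ H, s ≠ (h : ℤ)), ∏ h ∈ H, Pool.Agent.H646.rat (s - h).natAbs ≤
        ∑ s ∈ (Icc (-(D : ℤ)) D).filter (fun s => ∀ h ∈ H, s ≠ (h : ℤ)), ∑ h ∈ H, Pool.Agent.H646.rat (s - h).natAbs ^ k := by
          apply sum_le_sum
          intro s _
          have := prod_le_sum_pow hne (fun h => Pool.Agent.H646.rat (s - h).natAbs) (fun h _ => rat_nonneg _)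
          rwa [hH] at this
    _ = ∑ h ∈ H, ∑ s ∈ (Icc (-(D : ℤ)) D).filter (fun s => ∀ h ∈ H, s ≠ (h : ℤ)), Pool.Agent.H646.rat (s - h).natAbs ^ k := sum_comm
    _ ≤ ∑ _h ∈ H, 2 * (C * 2) * D := sum_le_sum h1
    _ = _ := by rw [sum_const, hH, nsmul_eq_mul]; ring

end Pool.Agent.Q162.MP
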