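import Pool.Agent.Q162.MP.Prog
import Pool.Agent.Q253.Cov.APd
import Pool.Agent.Q117.RP.TwoSided
import Pool.Agent.Q117.CW.Pattern

/-!
# Runs of consecutive almost primes in arithmetic progression: the conjectured order of magnitude, for every difference

Let `k ≥ 2`. A run of difference `d` at the scale `D` is a progression `n, n + d, …, n + (k - 1) d` of integers with at most `t` prime
factors, all `> X ^ (1/t)`, such that every other integer at a distance at most `D` from `n` has a small prime factor; so the terms are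
consecutive among the integers without small prime factors.

* Scale `D = ε log X`. For all large `X`, EVERY difference `d` divisible by all primes `≤ k` with `(k - 1) d ≤ ε log X`, all places
  `a ≠ b` and all intervals `(A, B] ⊆ [0, X]` of length `≥ θ X`, the number of the runs of difference `d` with a PRIME at place `a` and an
  integer with at most two prime factors, all `> X ^ (1/9)`, at place `b` is between `c 𝔖(d) (B - A) / log ^ k X` and
  `C 𝔖(d) (B - A) / log ^ k X`, `𝔖(d)` being the singular series of the progression; the number of all these runs together is between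
  `c (B - A) / log ^ (k - 1) X` and `C (B - A) / log ^ (k - 1) X`. All subsets of positive relative density contain `L`-term
  progressions of starting points of runs with one and the same difference, with a step `≤ log ^ E X`.
* Record scale `D = c f(X)`, `f(X) = log X (log₂ X)² log₄ X / (log₃ X)²`: for every `d` divisible by all primes `≤ k` with
  `(k - 1) d ≤ c f(X)` and every place there are at least `X ^ (98/100)` runs with a prime at this place.
* If some prime `≤ k` does not divide `d` there is no progression of difference `d` of almost primes.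

Libraries: `Pool.Agent.Q162.MP` (this result; from the starting modules `Y840.CT.genF`, `Q253.Thin.int_upper`, `H646.MomentM.rat_moment`,
`Y822.CT_tail`, `Y822.CT_up`, `Y843.HG.V1_bounds`, `Q253.Cov.ap_dense`) and `Pool.Agent.Q117.RP.growingT` (helper117).
-/

set_option autoImplicit false

namespace Pool.Agent.Q162.MP.RB

open Finset Filter
open Pool.Agent.Q253.Thin (SysZ IS VZ_low)
open Pool.Agent.Y843.HS (Pr VV Pr_mem Pr_prime)
open Pool.Agent.Q162.MP (W Zc sysZ VV_Zc tuples iso isolated prog_adm hit sum_prog diffs diffs_card fac_nonneg mem_Zc)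
open Pool.Agent.Q117.GP (rough_omega Adm)
open Pool.Agent.Q117.RP (growingT)
open Pool.Agent.H256R2.SC (ff)

/-- the progression `0, d, …, (k - 1) d` -/
def prog (k d : ℕ) : Finset ℕ := (range k).image (fun j => j * d)

/-- the number of residue classes modulo `p` occupied by `H` -/
def nu (H : Finset ℕ) (p : ℕ) : ℕ := (H.image (· % p)).card

/-- the factor at `p` of the singular series -/
noncomputable def loc (H : Finset ℕ) (p : ℕ) : ℝ :=
  (1 - (nu H p : ℝ) / p) / (1 - 1 / (p : ℝ)) ^ H.card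

/-- the singular series of `H` -/
noncomputable def sing (H : Finset ℕ) : ℝ := ∏' p : Nat.Primes, loc H p

/-- at most `t` prime factors (with multiplicity), all greater than `X ^ (1/t)` -/
def AlmostPrime (t : ℕ) (X : ℝ) (m : ℕ) : Prop :=
  0 < m ∧ m.primeFactorsList.length ≤ t ∧ ∀ q : ℕ, q.Prime → q ∣ m → X ^ (1 / (t : ℝ)) < q

open Classical in
/-- the starting points `n ∈ (A, B]` of the runs of difference `d` on the scale `ε log X`, with a prime at place `a` and at most two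
prime factors, all `> X ^ (1/9)`, at place `b` -/
noncomputable def runs (t : ℕ) (ε : ℝ) (X A B k d a b : ℕ) : Finset ℕ :=
  (Ioc A B).filter (fun n => (n + a * d).Prime ∧
    ((n + b * d).primeFactorsList.length ≤ 2 ∧ ∀ q : ℕ, q.Prime → q ∣ n + b * d → (X : ℝ) ^ (1 / 9 : ℝ) < q) ∧
    (∀ j < k, AlmostPrime t X (n + j * d)) ∧
    ∀ m : ℕ, |(m : ℝ) - n| ≤ ε * Real.log X → (∀ j < k, m ≠ n + j * d) →
      ∃ q : ℕ, q.Prime ∧ (q : ℝ) ≤ (X : ℝ) ^ (1 / (t : ℝ)) ∧ q ∣ m)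

open Classical in
/-- the starting points of all runs, with any difference `d ≥ 1`, `(k - 1) d ≤ ε log X` -/
noncomputable def allRuns (t : ℕ) (ε : ℝ) (X A B k a b : ℕ) : Finset ℕ :=
  (Ioc A B).filter (fun n => ∃ d : ℕ, 1 ≤ d ∧ ((k : ℝ) - 1) * d ≤ ε * Real.log X ∧ n ∈ runs t ε X A B k d a b)

/-- `log X (log₂ X)² log₄ X / (log₃ X)²` (iterated natural logarithms) -/
noncomputable def record (X : ℝ) : ℝ :=
  Real.log X * (Real.log (Real.log X)) ^ 2 * Real.log (Real.log (Real.log (Real.log X))) / (Real.log (Real.log (Real.log X))) ^ 2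

/-- the `n` for which `n + i d ∈ (X, 3X]` is a prime, all `n + j d`, `j < k`, are almost primes, and every other integer at a distance at
most `D` from `n` has a prime factor `≤ X ^ (1/log log X)` -/
def recordRuns (t : ℕ) (X D : ℝ) (k d i : ℕ) : Set ℕ :=
  {n | X < ((n + i * d : ℕ) : ℝ) ∧ ((n + i * d : ℕ) : ℝ) ≤ 3 * X ∧ (n + i * d).Prime ∧ (∀ j < k, AlmostPrime t X (n + j * d)) ∧
    ∀ m : ℕ, |(m : ℝ) - n| ≤ D → (∀ j < k, m ≠ n + j * d) →
      ∃ q : ℕ, q.Prime ∧ (q : ℝ) ≤ X ^ (1 / Real.log (Real.log X)) ∧ q ∣ m}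

/-! ## bridges -/

lemma prog_eq (k d : ℕ) : prog k d = Pool.Agent.Q162.MP.prog k d := rfl

lemma mem_prog {k d h : ℕ} : h ∈ prog k d ↔ ∃ j < k, j * d = h := Pool.Agent.Q162.MP.mem_prog

lemma prog_card {k d : ℕ} (hd : 1 ≤ d) : (prog k d).card = k := Pool.Agent.Q162.MP.prog_card hd

lemma sing_eq (H : Finset ℕ) : sing H = Pool.Agent.Q162.MP.sing H := rfl

lemma W_anti {H : Finset ℕ} (hadm : ∀ p : ℕ, p.Prime → Pool.Agent.Q162.MP.nu H p < p) {y z : ℕ} (hyz : y ≤ z) : W H z ≤ W H y := by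
  unfold W
  have hsub : Pr 0 y ⊆ Pr 0 z := by
    intro p hp
    rw [Pr_mem] at hp ⊢
    exact ⟨⟨hp.1.1, hp.1.2.trans hyz⟩, hp.2⟩
  rw [← prod_sdiff hsub]
  apply mul_le_of_le_one_left
  · exact prod_nonneg (fun p hp => fac_nonneg hadm (Pr_prime hp))
  · apply prod_le_one
    · intro p hp
      exact fac_nonneg hadm (Pr_prime (mem_sdiff.1 hp).1)
    · intro p _
      have : 0 ≤ (Pool.Agent.Q162.MP.nu H p : ℝ) / p := by positivity
      linarith

/-- two runs from one point have the same difference -/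
lemma runs_disjoint {t : ℕ} {ε : ℝ} {X A B k d d' a b : ℕ} (hk : 2 ≤ k) (hd : 1 ≤ d) (hlt : d < d')
    (hdX : ((k : ℝ) - 1) * d ≤ ε * Real.log X) {n : ℕ} (hn : n ∈ runs t ε X A B k d a b) (hn' : n ∈ runs t ε X A B k d' a b) : False := by
  classical
  unfold runs at hn hn'
  rw [mem_filter] at hn hn'
  obtain ⟨-, -, -, h1, -⟩ := hn
  obtain ⟨-, -, -, -, h2⟩ := hn'
  have h3 := h1 1 (by omega)
  rw [one_mul] at h3
  have hk2 : (2 : ℝ) ≤ k := by exact_mod_cast hk
  have hd0 : (0 : ℝ) ≤ d := Nat.cast_nonneg d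
  obtain ⟨q, hq, hqX, hqd⟩ := h2 (n + d) (by
    push_cast
    rw [add_sub_cancel_left, abs_of_nonneg hd0]
    nlinarith) (by
    intro j _ he
    rcases Nat.eq_zero_or_pos j with hj | hj
    · rw [hj] at he
      omega
    · have : d' ≤ j * d' := Nat.le_mul_of_pos_left d' hj
      omega)
  exact absurd hqX (not_le.2 (h3.2.2 q hq hqd))

/-- the runs are the isolated patterns -/
lemma runs_eq {t : ℕ} {ε : ℝ} {X A B k d a b : ℕ} (hε : 0 < ε) (hX : 1 ≤ X) (hBX : B ≤ X) (hlog : ε * Real.log X ≤ X)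
    (hdX : ((k : ℝ) - 1) * d ≤ ε * Real.log X)
    (hom : ∀ m : ℕ, 1 ≤ m → (m : ℝ) ≤ 4 * X → (∀ p : ℕ, p.Prime → (p : ℝ) ≤ (X : ℝ) ^ (1 / (t : ℝ)) → ¬ p ∣ m) →
      m.primeFactorsList.length ≤ t) :
    runs t ε X A B k d a b = iso t X A B ⌊ε * Real.log X⌋₊ (Pool.Agent.Q162.MP.prog k d) (a * d) (b * d) := by
  classical
  have hX1 : (1 : ℝ) ≤ X := by exact_mod_cast hX
  have hlX : 0 ≤ Real.log X := Real.log_nonneg hX1
  have hfl : ∀ m n : ℕ, |(m : ℤ) - n| ≤ (⌊ε * Real.log X⌋₊ : ℕ) ↔ |(m : ℝ) - n| ≤ ε * Real.log X := by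
    intro m n
    have e1 : |(m : ℝ) - n| = ((|(m : ℤ) - n|.toNat : ℕ) : ℝ) := by
      have e2 : ((|(m : ℤ) - n|.toNat : ℕ) : ℤ) = |(m : ℤ) - n| := Int.toNat_of_nonneg (abs_nonneg _)
      have e3 : ((|(m : ℤ) - n|.toNat : ℕ) : ℝ) = (((|(m : ℤ) - n|.toNat : ℕ) : ℤ) : ℝ) := (Int.cast_natCast _).symm
      rw [e3, e2, Int.cast_abs, Int.cast_sub, Int.cast_natCast, Int.cast_natCast]
    rw [e1, ← Nat.le_floor_iff (by positivity)]
    omega
  ext n
  unfold runs iso tuples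
  rw [mem_filter, mem_filter, mem_filter]
  constructor
  · rintro ⟨h1, h2, h3, h4, h5⟩
    refine ⟨⟨h1, h2, h3, ?_⟩, ?_⟩
    · intro h hh q hq hqX hqd
      obtain ⟨j, hj, rfl⟩ := Pool.Agent.Q162.MP.mem_prog.1 hh
      exact absurd hqX (not_le.2 ((h4 j hj).2.2 q hq hqd))
    · intro m hm hne
      apply h5 m ((hfl m n).1 hm)
      intro j hj
      exact hne (j * d) (Pool.Agent.Q162.MP.mem_prog.2 ⟨j, hj, rfl⟩)
  · rintro ⟨⟨h1, h2, h3, h4⟩, h5⟩
    refine ⟨h1, h2, h3, ?_, ?_⟩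
    · intro j hj
      rw [mem_Ioc] at h1
      have hmem : j * d ∈ Pool.Agent.Q162.MP.prog k d := Pool.Agent.Q162.MP.mem_prog.2 ⟨j, hj, rfl⟩
      refine ⟨by omega, ?_, ?_⟩
      · apply hom _ (by omega) _ (h4 _ hmem)
        have e1 : (n : ℝ) ≤ X := by exact_mod_cast h1.2.trans hBX
        have e2 : (j : ℝ) * d ≤ ((k : ℝ) - 1) * d := by
          apply mul_le_mul_of_nonneg_right _ (Nat.cast_nonneg d)
          have : ((j + 1 : ℕ) : ℝ) ≤ k := by exact_mod_cast hj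
          push_cast at this
          linarith
        push_cast
        linarith
      · intro q hq hqd
        by_contra hcon
        exact h4 _ hmem q hq (not_lt.1 hcon) hqd
    · intro m hm hne
      apply h5 m ((hfl m n).2 hm)
      intro h hh
      obtain ⟨j, hj, rfl⟩ := Pool.Agent.Q162.MP.mem_prog.1 hh
      exact hne j hj

/-- both bounds in terms of the products -/
lemma core (k : ℕ) (hk : 2 ≤ k) : ∃ t : ℕ, 1 ≤ t ∧ ∃ ε c C : ℝ, 0 < ε ∧ 0 < c ∧ 0 < C ∧
    ∀ θ : ℝ, 0 < θ → ∃ X₀ : ℕ, ∀ X : ℕ, X₀ ≤ X → 2 ≤ X ∧ (k : ℝ) ≤ (X : ℝ) ^ (1 / (t : ℝ)) ∧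
      ∀ a < k, ∀ b < k, a ≠ b → ∀ A B : ℕ, B ≤ X → θ * X ≤ (B : ℝ) - A →
      ∀ d : ℕ, 1 ≤ d → ((k : ℝ) - 1) * d ≤ ε * Real.log X → (∀ p : ℕ, p.Prime → p ≤ k → p ∣ d) →
          c * (((B : ℝ) - A) * W (prog k d) X) ≤ ((runs t ε X A B k d a b).card : ℝ) ∧
          ((runs t ε X A B k d a b).card : ℝ) ≤ C * (((B : ℝ) - A) * W (prog k d) X) := by
  classical
  obtain ⟨t, ht, ε, c, C, hε, hc, hC, hiso⟩ := isolated k hk
  obtain ⟨X2, h2⟩ := rough_omega t ht
  have ht0 : (0 : ℝ) < t := by exact_mod_cast ht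
  obtain ⟨X3, h3⟩ := eventually_atTop.1 (((tendsto_rpow_atTop (show (0 : ℝ) < 1 / t by positivity)).comp
    tendsto_natCast_atTop_atTop).eventually_ge_atTop (k : ℝ))
  obtain ⟨X4, h4⟩ := eventually_atTop.1 (tendsto_natCast_atTop_atTop.eventually (Real.isLittleO_log_id_atTop.bound (show (0 : ℝ) < 1 / ε by positivity)))
  refine ⟨t, ht, ε, c, C, hε, hc, hC, ?_⟩
  intro θ hθ
  obtain ⟨X1, h1⟩ := hiso θ hθ
  refine ⟨max (max X1 ⌈X2⌉₊) (max X3 (max X4 2)), ?_⟩
  intro X hX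
  have g1 : X1 ≤ X := ((le_max_left _ _).trans (le_max_left _ _)).trans hX
  have g2 : ⌈X2⌉₊ ≤ X := ((le_max_right _ _).trans (le_max_left _ _)).trans hX
  have g3 : X3 ≤ X := ((le_max_left _ _).trans (le_max_right _ _)).trans hX
  have g4 : X4 ≤ X := ((le_max_left _ _).trans ((le_max_right _ _).trans (le_max_right _ _))).trans hX
  have g5 : 2 ≤ X := ((le_max_right _ _).trans ((le_max_right _ _).trans (le_max_right _ _))).trans hX
  have hX2 : (2 : ℝ) ≤ X := by exact_mod_cast g5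
  have hlX : 0 < Real.log X := Real.log_pos (by linarith)
  have hlog : ε * Real.log X ≤ X := by
    have h5 : ‖Real.log (X : ℝ)‖ ≤ 1 / ε * ‖(id (X : ℝ) : ℝ)‖ := h4 X g4
    rw [Real.norm_of_nonneg hlX.le, id, Real.norm_of_nonneg (by linarith)] at h5
    calc ε * Real.log X ≤ ε * (1 / ε * X) := mul_le_mul_of_nonneg_left h5 hε.le
      _ = X := by field_simp
  refine ⟨g5, h3 X g3, ?_⟩
  intro a ha b hb hab A B hBX hAB d hd hdX hall
  have e1 := runs_eq (t := t) (A := A) (B := B) (a := a) (b := b) hε (by omega) hBX hlog hdX (h2 X (Nat.ceil_le.1 g2))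
  have hD : ((⌊ε * Real.log X⌋₊ : ℕ) : ℝ) ≤ ε * Real.log X := Nat.floor_le (by positivity)
  have hle : ∀ h ∈ Pool.Agent.Q162.MP.prog k d, h ≤ ⌊ε * Real.log X⌋₊ := by
    intro h hh
    obtain ⟨j, hj, rfl⟩ := Pool.Agent.Q162.MP.mem_prog.1 hh
    apply Nat.le_floor
    refine le_trans ?_ hdX
    push_cast
    apply mul_le_mul_of_nonneg_right _ (Nat.cast_nonneg d)
    have : ((j + 1 : ℕ) : ℝ) ≤ k := by exact_mod_cast hj
    push_cast at this
    linarith
  obtain ⟨l1, l2⟩ := h1 X g1 ⌊ε * Real.log X⌋₊ hD (Pool.Agent.Q162.MP.prog k d) (prog_card hd) hle (prog_adm (by omega) hall)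
    (a * d) (Pool.Agent.Q162.MP.mem_prog.2 ⟨a, ha, rfl⟩) (b * d) (Pool.Agent.Q162.MP.mem_prog.2 ⟨b, hb, rfl⟩)
    (fun h => hab (Nat.eq_of_mul_eq_mul_right (by omega) h)) A B hBX hAB
  rw [e1]
  refine ⟨l1, le_trans ?_ l2⟩
  have : (iso t X A B ⌊ε * Real.log X⌋₊ (Pool.Agent.Q162.MP.prog k d) (a * d) (b * d)) ⊆
      tuples t X A B (Pool.Agent.Q162.MP.prog k d) (a * d) (b * d) := by
    unfold iso
    exact filter_subset _ _
  exact_mod_cast card_le_card this

/-- all runs -/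
lemma allRuns_eq {t : ℕ} {ε : ℝ} {X A B k a b : ℕ} (hk : 2 ≤ k) (hε : 0 < ε) (hX : 2 ≤ X) (hkX : (k : ℝ) ≤ (X : ℝ) ^ (1 / (t : ℝ))) :
    allRuns t ε X A B k a b = (diffs k ⌊ε * Real.log X / ((k : ℝ) - 1)⌋₊).biUnion (fun d => runs t ε X A B k d a b) := by
  classical
  have hX2 : (2 : ℝ) ≤ X := by exact_mod_cast hX
  have hlX : 0 < Real.log X := Real.log_pos (by linarith)
  have hk2 : (2 : ℝ) ≤ k := by exact_mod_cast hk
  have hk1 : (0 : ℝ) < (k : ℝ) - 1 := by linarith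
  have hiff : ∀ d : ℕ, d ≤ ⌊ε * Real.log X / ((k : ℝ) - 1)⌋₊ ↔ ((k : ℝ) - 1) * d ≤ ε * Real.log X := by
    intro d
    rw [Nat.le_floor_iff (by positivity), le_div_iff₀ hk1, mul_comm]
  ext n
  unfold allRuns
  rw [mem_filter, mem_biUnion]
  constructor
  · rintro ⟨_, d, hd, hdX, hn⟩
    refine ⟨d, ?_, hn⟩
    unfold Pool.Agent.Q162.MP.diffs
    rw [mem_filter, mem_Icc]
    refine ⟨⟨hd, (hiff d).2 hdX⟩, ?_⟩
    intro p hp hpk
    by_contra hpd
    obtain ⟨j, hj, hdiv⟩ := hit hp hpk hpd n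
    unfold runs at hn
    rw [mem_filter] at hn
    have h5 := (hn.2.2.2.1 j hj).2.2 p hp hdiv
    have h7 : (p : ℝ) ≤ k := by exact_mod_cast hpk
    linarith
  · rintro ⟨d, hd, hn⟩
    unfold Pool.Agent.Q162.MP.diffs at hd
    rw [mem_filter, mem_Icc] at hd
    have h1 := hn
    unfold runs at h1
    rw [mem_filter] at h1
    exact ⟨h1.1, d, hd.1.1, (hiff d).1 hd.1.2, hn⟩

lemma pairwise {t : ℕ} {ε : ℝ} {X A B k a b : ℕ} (hk : 2 ≤ k) (hε : 0 < ε) (hX : 2 ≤ X) :
    Set.PairwiseDisjoint ((diffs k ⌊ε * Real.log X / ((k : ℝ) - 1)⌋₊ : Finset ℕ) : Set ℕ) (fun d => runs t ε X A B k d a b) := by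
  classical
  have hX2 : (2 : ℝ) ≤ X := by exact_mod_cast hX
  have hlX : 0 < Real.log X := Real.log_pos (by linarith)
  have hk2 : (2 : ℝ) ≤ k := by exact_mod_cast hk
  have hk1 : (0 : ℝ) < (k : ℝ) - 1 := by linarith
  have hin : ∀ d ∈ diffs k ⌊ε * Real.log X / ((k : ℝ) - 1)⌋₊, 1 ≤ d ∧ ((k : ℝ) - 1) * d ≤ ε * Real.log X := by
    intro d hd
    unfold Pool.Agent.Q162.MP.diffs at hd
    rw [mem_filter, mem_Icc] at hd
    refine ⟨hd.1.1, ?_⟩
    have h1 := hd.1.2
    rw [Nat.le_floor_iff (by positivity), le_div_iff₀ hk1, mul_comm] at h1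
    exact h1
  intro d hd d' hd' hne
  rw [Function.onFun, disjoint_left]
  intro n hn hn'
  have i1 := hin d (mem_coe.1 hd)
  have i2 := hin d' (mem_coe.1 hd')
  rcases lt_or_gt_of_ne hne with h | h
  · exact runs_disjoint hk i1.1 h i1.2 hn hn'
  · exact runs_disjoint hk i2.1 h i2.2 hn' hn

lemma mem_diffs {k N d : ℕ} : d ∈ diffs k N ↔ (1 ≤ d ∧ d ≤ N) ∧ ∀ p : ℕ, p.Prime → p ≤ k → p ∣ d := by
  classical
  unfold Pool.Agent.Q162.MP.diffs
  rw [mem_filter, mem_Icc]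

/-- **The runs on the scale `ε log X`.** -/
theorem scale (k : ℕ) (hk : 2 ≤ k) : ∃ t : ℕ, 1 ≤ t ∧ ∃ ε c C : ℝ, 0 < ε ∧ 0 < c ∧ 0 < C ∧
      (∀ θ : ℝ, 0 < θ → ∃ X₀ : ℕ, ∀ X : ℕ, X₀ ≤ X → ∀ a < k, ∀ b < k, a ≠ b → ∀ A B : ℕ, B ≤ X → θ * X ≤ (B : ℝ) - A →
        (∀ d : ℕ, 1 ≤ d → ((k : ℝ) - 1) * d ≤ ε * Real.log X → (∀ p : ℕ, p.Prime → p ≤ k → p ∣ d) →
          c * (sing (prog k d) * (((B : ℝ) - A) / Real.log X ^ k)) ≤ ((runs t ε X A B k d a b).card : ℝ) ∧
          ((runs t ε X A B k d a b).card : ℝ) ≤ C * (sing (prog k d) * (((B : ℝ) - A) / Real.log X ^ k))) ∧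
        c * (((B : ℝ) - A) / Real.log X ^ (k - 1)) ≤ ((allRuns t ε X A B k a b).card : ℝ) ∧
        ((allRuns t ε X A B k a b).card : ℝ) ≤ C * (((B : ℝ) - A) / Real.log X ^ (k - 1))) ∧
      (∀ (L : ℕ) (η : ℝ), 0 < η → ∃ E X₀ : ℕ, ∀ X : ℕ, X₀ ≤ X → ∀ a < k, ∀ b < k, a ≠ b →
        (∀ d : ℕ, 1 ≤ d → ((k : ℝ) - 1) * d ≤ ε * Real.log X → (∀ p : ℕ, p.Prime → p ≤ k → p ∣ d) →
          ∀ S ⊆ runs t ε X 0 X k d a b, η * ((runs t ε X 0 X k d a b).card : ℝ) ≤ S.card →
            ∃ x r : ℕ, 1 ≤ r ∧ (r : ℝ) ≤ Real.log X ^ E ∧ ∀ i < L, x + i * r ∈ S) ∧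
        ∀ S ⊆ allRuns t ε X 0 X k a b, η * ((allRuns t ε X 0 X k a b).card : ℝ) ≤ S.card →
            ∃ x r d : ℕ, 1 ≤ r ∧ (r : ℝ) ≤ Real.log X ^ E ∧ ∀ i < L, x + i * r ∈ S ∧ x + i * r ∈ runs t ε X 0 X k d a b) := by
  classical
  obtain ⟨t, ht, ε, c0, C0, hε, hc0, hC0, hcore⟩ := core k hk
  obtain ⟨c1, C1, hc1, hC1, X1, hcmp⟩ := Pool.Agent.Q162.MP.compare k
  obtain ⟨c2, hc2, hlow⟩ := VZ_low k (by omega)
  obtain ⟨C3, hC3, hsum⟩ := sum_prog k (by omega)
  obtain ⟨P, hP, hdc⟩ := diffs_card k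
  have hPr : (1 : ℝ) ≤ P := by exact_mod_cast hP
  have hk2 : (2 : ℝ) ≤ k := by exact_mod_cast hk
  have hk1 : (1 : ℝ) ≤ (k : ℝ) - 1 := by linarith
  have hk0 : (0 : ℝ) < (k : ℝ) - 1 := by linarith
  have ht0 : (0 : ℝ) < t := by exact_mod_cast ht
  have ht1 : (1 : ℝ) ≤ t := by exact_mod_cast ht
  obtain ⟨X2, h2⟩ := eventually_atTop.1 ((Real.tendsto_log_atTop.comp tendsto_natCast_atTop_atTop).eventually_ge_atTop
    (4 * (((k : ℝ) - 1) * P) / ε))
  obtain ⟨X4, h4⟩ := eventually_atTop.1 (tendsto_natCast_atTop_atTop.eventually (Real.isLittleO_log_id_atTop.bound (show (0 : ℝ) < 1 / ε by positivity)))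
  -- the number of differences
  have hnum : ∀ X : ℕ, X2 ≤ X → 2 ≤ X → ε * Real.log X / (2 * (((k : ℝ) - 1) * P)) ≤ ((diffs k ⌊ε * Real.log X / ((k : ℝ) - 1)⌋₊).card : ℝ) := by
    intro X hX hX2
    have h3 := h2 X hX
    simp only [Function.comp_apply] at h3
    rw [div_le_iff₀ hε] at h3
    have hlX : 0 < Real.log X := Real.log_pos (by exact_mod_cast (by omega : 1 < X))
    set N : ℕ := ⌊ε * Real.log X / ((k : ℝ) - 1)⌋₊ with hN
    have e1 : ε * Real.log X / ((k : ℝ) - 1) < N + 1 := Nat.lt_floor_add_one _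
    have e2 : (N : ℝ) / P < ((N / P : ℕ) : ℝ) + 1 := by
      rw [div_lt_iff₀ (by linarith)]
      have := Nat.lt_mul_div_succ N (show 0 < P by omega)
      have e3 : (N : ℝ) < ((P * (N / P + 1) : ℕ) : ℝ) := by exact_mod_cast this
      push_cast at e3
      linarith
    have e3 : ((N / P : ℕ) : ℝ) ≤ ((diffs k N).card : ℝ) := by exact_mod_cast hdc N
    have e4 : ε * Real.log X / ((k : ℝ) - 1) / P < (N + 1) / P := div_lt_div_of_pos_right e1 (by linarith)
    have e5 : 1 / (P : ℝ) ≤ 1 := by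
      rw [div_le_one (by linarith)]
      exact hPr
    have e6 : ((N : ℝ) + 1) / P = N / P + 1 / P := by ring
    have e7 : ε * Real.log X / (2 * (((k : ℝ) - 1) * P)) = ε * Real.log X / ((k : ℝ) - 1) / P / 2 := by
      rw [div_div, div_div]
      ring
    have e8 : 4 ≤ ε * Real.log X / ((k : ℝ) - 1) / P := by
      rw [div_div, le_div_iff₀ (by positivity)]
      linarith
    rw [e7]
    linarith
  set c : ℝ := min (c0 * c1) (c0 * c2 * (ε / (2 * (((k : ℝ) - 1) * P)))) with hc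
  have hcpos : 0 < c := lt_min (by positivity) (by positivity)
  -- first part
  have part1 : ∀ θ : ℝ, 0 < θ → ∃ X₀ : ℕ, ∀ X : ℕ, X₀ ≤ X → ∀ a < k, ∀ b < k, a ≠ b → ∀ A B : ℕ, B ≤ X → θ * X ≤ (B : ℝ) - A →
        (∀ d : ℕ, 1 ≤ d → ((k : ℝ) - 1) * d ≤ ε * Real.log X → (∀ p : ℕ, p.Prime → p ≤ k → p ∣ d) →
          c * (sing (prog k d) * (((B : ℝ) - A) / Real.log X ^ k)) ≤ ((runs t ε X A B k d a b).card : ℝ) ∧
          ((runs t ε X A B k d a b).card : ℝ) ≤ (C0 * C1 + C0 * C3 * ε) * (sing (prog k d) * (((B : ℝ) - A) / Real.log X ^ k))) ∧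
        c * (((B : ℝ) - A) / Real.log X ^ (k - 1)) ≤ ((allRuns t ε X A B k a b).card : ℝ) ∧
        ((allRuns t ε X A B k a b).card : ℝ) ≤ (C0 * C1 + C0 * C3 * ε) * (((B : ℝ) - A) / Real.log X ^ (k - 1)) := by
    intro θ hθ
    obtain ⟨X3, h3⟩ := hcore θ hθ
    refine ⟨max (max X1 X2) (max X3 X4), ?_⟩
    intro X hX a ha b hb hab A B hBX hAB
    have g1 : X1 ≤ X := ((le_max_left _ _).trans (le_max_left _ _)).trans hX
    have g2 : X2 ≤ X := ((le_max_right _ _).trans (le_max_left _ _)).trans hX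
    have g3 : X3 ≤ X := ((le_max_left _ _).trans (le_max_right _ _)).trans hX
    have g4 : X4 ≤ X := ((le_max_right _ _).trans (le_max_right _ _)).trans hX
    obtain ⟨hX2, hkX, h5⟩ := h3 X g3
    have h6 := h5 a ha b hb hab A B hBX hAB
    have hXr : (2 : ℝ) ≤ X := by exact_mod_cast hX2
    have hlX : 0 < Real.log X := Real.log_pos (by linarith)
    have hlen : (0 : ℝ) < (B : ℝ) - A := lt_of_lt_of_le (by positivity) hAB
    have hlog : ε * Real.log X ≤ X := by
      have h7 : ‖Real.log (X : ℝ)‖ ≤ 1 / ε * ‖(id (X : ℝ) : ℝ)‖ := h4 X g4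
      rw [Real.norm_of_nonneg hlX.le, id, Real.norm_of_nonneg (by linarith)] at h7
      calc ε * Real.log X ≤ ε * (1 / ε * X) := mul_le_mul_of_nonneg_left h7 hε.le
        _ = X := by field_simp
    have hbd : ∀ d : ℕ, 1 ≤ d → ((k : ℝ) - 1) * d ≤ ε * Real.log X → ∀ h ∈ prog k d, h ≤ X := by
      intro d hd hdX h hh
      obtain ⟨j, hj, rfl⟩ := mem_prog.1 hh
      have e1 : (j : ℝ) * d ≤ ((k : ℝ) - 1) * d := by
        apply mul_le_mul_of_nonneg_right _ (Nat.cast_nonneg d)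
        have : ((j + 1 : ℕ) : ℝ) ≤ k := by exact_mod_cast hj
        push_cast at this
        linarith
      have e2 : ((j * d : ℕ) : ℝ) ≤ X := by
        push_cast
        linarith
      exact_mod_cast e2
    have hWlow : ∀ d : ℕ, 1 ≤ d → (∀ p : ℕ, p.Prime → p ≤ k → p ∣ d) → c2 / Real.log X ^ k ≤ W (prog k d) X := by
      intro d hd hall
      rw [← VV_Zc]
      exact hlow X hX2 _ (sysZ (prog_card hd) (prog_adm (by omega) hall))
    have hsing : ∀ H : Finset ℕ, 0 ≤ sing H := fun H => by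
      rw [sing_eq, Pool.Agent.Q162.MP.sing_eq]
      exact Pool.Agent.H387R2.Uni.CT_nonneg H
    refine ⟨?_, ?_, ?_⟩
    · intro d hd hdX hall
      obtain ⟨l1, l2⟩ := h6 d hd hdX hall
      obtain ⟨k1, k2⟩ := hcmp X g1 (prog k d) (prog_card hd) (hbd d hd hdX)
      have k3 : W (prog k d) (2 * X) ≤ W (prog k d) X := W_anti (prog_adm (by omega) hall) (by omega)
      have hs := hsing (prog k d)
      constructor
      · calc c * (sing (prog k d) * (((B : ℝ) - A) / Real.log X ^ k)) ≤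
              (c0 * c1) * (sing (prog k d) * (((B : ℝ) - A) / Real.log X ^ k)) := by
                apply mul_le_mul_of_nonneg_right (min_le_left _ _) (by positivity)
          _ = c0 * (((B : ℝ) - A) * (c1 * (sing (prog k d) / Real.log X ^ k))) := by ring
          _ ≤ c0 * (((B : ℝ) - A) * W (prog k d) X) := by
                apply mul_le_mul_of_nonneg_left _ hc0.le
                apply mul_le_mul_of_nonneg_left _ hlen.le
                exact k1.trans k3
          _ ≤ _ := l1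
      · calc ((runs t ε X A B k d a b).card : ℝ) ≤ C0 * (((B : ℝ) - A) * W (prog k d) X) := l2
          _ ≤ C0 * (((B : ℝ) - A) * (C1 * (sing (prog k d) / Real.log X ^ k))) := by
                apply mul_le_mul_of_nonneg_left _ hC0.le
                apply mul_le_mul_of_nonneg_left _ hlen.le
                exact k2
          _ = (C0 * C1) * (sing (prog k d) * (((B : ℝ) - A) / Real.log X ^ k)) := by ring
          _ ≤ _ := by
                apply mul_le_mul_of_nonneg_right _ (by positivity)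
                have : 0 ≤ C0 * C3 * ε := by positivity
                linarith
    · rw [allRuns_eq hk hε hX2 hkX, card_biUnion (fun d hd d' hd' hne => pairwise hk hε hX2 hd hd' hne), Nat.cast_sum]
      have e1 : ∀ d ∈ diffs k ⌊ε * Real.log X / ((k : ℝ) - 1)⌋₊, c0 * (((B : ℝ) - A) * (c2 / Real.log X ^ k)) ≤
          ((runs t ε X A B k d a b).card : ℝ) := by
        intro d hd
        rw [mem_diffs] at hd
        obtain ⟨⟨d1, d2⟩, d3⟩ := hd
        rw [Nat.le_floor_iff (by positivity), le_div_iff₀ hk0, mul_comm] at d2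
        refine le_trans ?_ (h6 d d1 d2 d3).1
        apply mul_le_mul_of_nonneg_left _ hc0.le
        exact mul_le_mul_of_nonneg_left (hWlow d d1 d3) hlen.le
      have e2 := sum_le_sum e1
      rw [sum_const, nsmul_eq_mul] at e2
      refine le_trans ?_ e2
      have e3 := hnum X g2 hX2
      obtain ⟨r, rfl⟩ : ∃ r, k = r + 1 := ⟨k - 1, by omega⟩
      calc c * (((B : ℝ) - A) / Real.log X ^ (r + 1 - 1)) ≤
            (c0 * c2 * (ε / (2 * ((((r + 1 : ℕ) : ℝ) - 1) * P)))) * (((B : ℝ) - A) / Real.log X ^ (r + 1 - 1)) :=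
              mul_le_mul_of_nonneg_right (min_le_right _ _) (by positivity)
        _ = (ε * Real.log X / (2 * ((((r + 1 : ℕ) : ℝ) - 1) * P))) * (c0 * (((B : ℝ) - A) * (c2 / Real.log X ^ (r + 1)))) := by
              rw [Nat.add_sub_cancel, pow_succ]
              field_simp
        _ ≤ _ := mul_le_mul_of_nonneg_right e3 (by positivity)
    · rw [allRuns_eq hk hε hX2 hkX, card_biUnion (fun d hd d' hd' hne => pairwise hk hε hX2 hd hd' hne), Nat.cast_sum]
      have e1 : ∀ d ∈ diffs k ⌊ε * Real.log X / ((k : ℝ) - 1)⌋₊, ((runs t ε X A B k d a b).card : ℝ) ≤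
          (C0 * ((B : ℝ) - A)) * W (prog k d) X := by
        intro d hd
        rw [mem_diffs] at hd
        obtain ⟨⟨d1, d2⟩, d3⟩ := hd
        rw [Nat.le_floor_iff (by positivity), le_div_iff₀ hk0, mul_comm] at d2
        refine (h6 d d1 d2 d3).2.trans (le_of_eq ?_)
        ring
      have e2 := sum_le_sum e1
      rw [← mul_sum] at e2
      refine e2.trans ?_
      have e3 := hsum X hX2 ⌊ε * Real.log X / ((k : ℝ) - 1)⌋₊
      have e4 : ((⌊ε * Real.log X / ((k : ℝ) - 1)⌋₊ : ℕ) : ℝ) ≤ ε * Real.log X := by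
        refine (Nat.floor_le (by positivity)).trans ?_
        exact div_le_self (by positivity) hk1
      calc C0 * ((B : ℝ) - A) * ∑ d ∈ diffs k ⌊ε * Real.log X / ((k : ℝ) - 1)⌋₊, W (prog k d) X ≤
            C0 * ((B : ℝ) - A) * (C3 * ((ε * Real.log X) / Real.log X ^ k)) := by
              apply mul_le_mul_of_nonneg_left _ (by positivity)
              refine e3.trans ?_
              gcongr
        _ = (C0 * C3 * ε) * (((B : ℝ) - A) / Real.log X ^ (k - 1)) := by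
              obtain ⟨r, rfl⟩ : ∃ r, k = r + 1 := ⟨k - 1, by omega⟩
              rw [Nat.add_sub_cancel, pow_succ]
              field_simp
        _ ≤ _ := by
              apply mul_le_mul_of_nonneg_right _ (by positivity)
              have : 0 ≤ C0 * C1 := by positivity
              linarith
  refine ⟨t, ht, ε, c, C0 * C1 + C0 * C3 * ε, hε, hcpos, by positivity, part1, ?_⟩
  intro L η hη
  obtain ⟨E, X5, h5⟩ := Pool.Agent.Q253.Cov.ap_dense L k (1 / t) (η * c0) (by positivity)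
    (by rw [div_le_one ht0]; exact ht1) (by positivity)
  obtain ⟨X3, h3⟩ := hcore 1 one_pos
  refine ⟨E, max (max X5 X2) X3, ?_⟩
  intro X hX a ha b hb hab
  have g5 : X5 ≤ X := ((le_max_left _ _).trans (le_max_left _ _)).trans hX
  have g2 : X2 ≤ X := ((le_max_right _ _).trans (le_max_left _ _)).trans hX
  have g3 : X3 ≤ X := (le_max_right _ _).trans hX
  obtain ⟨hX2, hkX, h7⟩ := h3 X g3
  have hXr : (2 : ℝ) ≤ X := by exact_mod_cast hX2
  have hlX : 0 < Real.log X := Real.log_pos (by linarith)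
  have h8 := h7 a ha b hb hab 0 X le_rfl (by push_cast; linarith)
  have fixed : ∀ d : ℕ, 1 ≤ d → ((k : ℝ) - 1) * d ≤ ε * Real.log X → (∀ p : ℕ, p.Prime → p ≤ k → p ∣ d) →
          ∀ S ⊆ runs t ε X 0 X k d a b, η * ((runs t ε X 0 X k d a b).card : ℝ) ≤ S.card →
            ∃ x r : ℕ, 1 ≤ r ∧ (r : ℝ) ≤ Real.log X ^ E ∧ ∀ i < L, x + i * r ∈ S := by
    intro d hd hdX hall S hS hSc
    apply h5 X g5 (Zc (prog k d)) (sysZ (prog_card hd) (prog_adm (by omega) hall)) 0 S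
    · intro n hn
      have h9 := hS hn
      unfold runs at h9
      rw [mem_filter, mem_Ioc] at h9
      rw [mem_Ioc]
      omega
    · intro n hn p hp hpX hmem
      have h9 := hS hn
      unfold runs at h9
      rw [mem_filter] at h9
      obtain ⟨h, hh, hdiv⟩ := mem_Zc (prog k d) hp.pos n hmem
      obtain ⟨j, hj, rfl⟩ := mem_prog.1 hh
      exact absurd hpX (not_le.2 ((h9.2.2.2.1 j hj).2.2 p hp hdiv))
    · rw [VV_Zc]
      refine le_trans ?_ hSc
      have h9 := (h8 d hd hdX hall).1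
      rw [Nat.cast_zero, sub_zero] at h9
      calc η * c0 * (X * W (prog k d) X) = η * (c0 * (X * W (prog k d) X)) := by ring
        _ ≤ _ := mul_le_mul_of_nonneg_left h9 hη.le
  refine ⟨fixed, ?_⟩
  intro S hS hSc
  have hpw := pairwise (t := t) (A := 0) (B := X) (a := a) (b := b) hk hε hX2
  have hall := allRuns_eq (t := t) (A := 0) (B := X) (a := a) (b := b) hk hε hX2 hkX
  have hne : (diffs k ⌊ε * Real.log X / ((k : ℝ) - 1)⌋₊).Nonempty := by
    rw [← card_pos]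
    have h9 : (0 : ℝ) < ((diffs k ⌊ε * Real.log X / ((k : ℝ) - 1)⌋₊).card : ℝ) :=
      lt_of_lt_of_le (by positivity) (hnum X g2 hX2)
    exact_mod_cast h9
  have hSeq : S = (diffs k ⌊ε * Real.log X / ((k : ℝ) - 1)⌋₊).biUnion (fun d => S ∩ runs t ε X 0 X k d a b) := by
    rw [← inter_biUnion, ← hall]
    exact (inter_eq_left.2 hS).symm
  have hcS : (S.card : ℝ) = ∑ d ∈ diffs k ⌊ε * Real.log X / ((k : ℝ) - 1)⌋₊, ((S ∩ runs t ε X 0 X k d a b).card : ℝ) := by
    conv_lhs => rw [hSeq]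
    rw [card_biUnion, Nat.cast_sum]
    intro d hd d' hd' hdd
    exact (hpw hd hd' hdd).mono inter_subset_right inter_subset_right
  rw [hall, card_biUnion (fun d hd d' hd' hne => hpw hd hd' hne), hcS, Nat.cast_sum, mul_sum] at hSc
  obtain ⟨d, hd, hle⟩ := exists_le_of_sum_le hne hSc
  rw [mem_diffs] at hd
  obtain ⟨⟨d1, d2⟩, d3⟩ := hd
  rw [Nat.le_floor_iff (by positivity), le_div_iff₀ hk0, mul_comm] at d2
  obtain ⟨x, r, hr1, hr2, hr3⟩ := fixed d d1 d2 d3 (S ∩ runs t ε X 0 X k d a b) inter_subset_right hle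
  exact ⟨x, r, d, hr1, hr2, fun i hi => mem_inter.1 (hr3 i hi)⟩

lemma prog_Adm {k d : ℕ} (hd : 1 ≤ d) (h : ∀ p : ℕ, p.Prime → p ≤ k → p ∣ d) : Adm (prog k d) := by
  intro p hp
  by_cases hpk : p ≤ k
  · refine ⟨1, ?_⟩
    intro x hx hdiv
    obtain ⟨j, _, rfl⟩ := mem_prog.1 hx
    have h1 : p ∣ j * d := Dvd.dvd.mul_left (h p hp hpk) j
    exact hp.one_lt.ne' (Nat.dvd_one.1 ((Nat.dvd_add_left h1).1 hdiv))
  · obtain ⟨r, hr⟩ := Pool.Agent.Q117.CW.avoid (prog k d) p (by rw [prog_card hd]; omega)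
    exact ⟨r, hr⟩

/-- **The runs on the record scale.** -/
theorem recordScale (k : ℕ) (hk : 2 ≤ k) : ∃ t : ℕ, 1 ≤ t ∧ ∃ c : ℝ, 0 < c ∧ ∃ X₀ : ℝ, ∀ X : ℝ, X₀ ≤ X →
    ∀ d : ℕ, 1 ≤ d → ((k : ℝ) - 1) * d ≤ c * record X → (∀ p : ℕ, p.Prime → p ≤ k → p ∣ d) →
      ∀ i < k, X ^ (98 / 100 : ℝ) ≤ ((recordRuns t X (c * record X) k d i).ncard : ℝ) := by
  classical
  obtain ⟨t, ht, c, hc, X1, h1⟩ := growingT k (by omega)
  obtain ⟨X2, h2⟩ := rough_omega t ht
  refine ⟨t, ht, c, hc, max X1 (max X2 2), ?_⟩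
  intro X hX d hd hdX hall i hi
  have g1 : X1 ≤ X := (le_max_left _ _).trans hX
  have g2 : X2 ≤ X := ((le_max_left _ _).trans (le_max_right _ _)).trans hX
  have g4 : 2 ≤ X := ((le_max_right _ _).trans (le_max_right _ _)).trans hX
  obtain ⟨b1, b2, key⟩ := h1 X g1
  have hR : record X = ff X := rfl
  rw [hR] at hdX ⊢
  have hle : ∀ h ∈ prog k d, (h : ℝ) ≤ c * ff X := by
    intro h hh
    obtain ⟨j, hj, rfl⟩ := mem_prog.1 hh
    refine le_trans ?_ hdX
    push_cast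
    have h5 : (j : ℝ) ≤ (k : ℝ) - 1 := by
      have : j + 1 ≤ k := hj
      have h6 : ((j + 1 : ℕ) : ℝ) ≤ k := by exact_mod_cast this
      push_cast at h6
      linarith
    exact mul_le_mul_of_nonneg_right h5 (Nat.cast_nonneg d)
  refine (key (prog k d) (prog_card hd) hle (prog_Adm hd hall) (i * d) (mem_prog.2 ⟨i, hi, rfl⟩)).trans ?_
  rw [Nat.cast_le]
  apply Set.ncard_le_ncard
  · rintro n ⟨a1, a2, a3, a4, a5⟩
    refine ⟨a1, a2, a3, ?_, ?_⟩
    · intro j hj
      have hh : j * d ∈ prog k d := mem_prog.2 ⟨j, hj, rfl⟩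
      have hhX := hle _ hh
      have hn0 : 0 < n + j * d := by
        rcases Nat.eq_zero_or_pos (n + j * d) with h0 | h0
        · exfalso
          have hn : n = 0 := by omega
          have haX := hle _ (mem_prog.2 ⟨i, hi, rfl⟩)
          rw [hn, zero_add] at a1
          linarith
        · exact h0
      refine ⟨hn0, h2 X g2 (n + j * d) hn0 ?_ (a4 _ hh), ?_⟩
      · have h3' : (n : ℝ) ≤ ((n + i * d : ℕ) : ℝ) := by exact_mod_cast Nat.le_add_right n (i * d)
        rw [Nat.cast_add]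
        linarith
      · intro q hq hdq
        by_contra hcon
        exact a4 _ hh q hq (not_lt.1 hcon) hdq
    · intro m hm hne
      apply a5 m hm
      intro h hh
      obtain ⟨j, hj, rfl⟩ := mem_prog.1 hh
      exact hne j hj
  · apply (Set.finite_Iic ⌊3 * X⌋₊).subset
    intro n hn
    apply Nat.le_floor
    refine le_trans ?_ hn.2.1
    exact_mod_cast Nat.le_add_right n (i * d)

/-- the singular series of a progression -/
theorem sing_prog (k : ℕ) (hk : 2 ≤ k) (d : ℕ) (hd : 1 ≤ d) :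
    HasProd (fun p : Nat.Primes => loc (prog k d) p) (sing (prog k d)) ∧
      ((∀ p : ℕ, p.Prime → p ≤ k → p ∣ d) → 0 < sing (prog k d)) := by
  refine ⟨Pool.Agent.H387R2.Uni.CT_hasProd (prog k d), fun hall => ?_⟩
  rw [sing_eq, Pool.Agent.Q162.MP.sing_eq, ← Pool.Agent.H387R2.Uni.CT_en]
  apply Pool.Agent.H386R2.HL.singularSeries_pos (Pool.Agent.H387R2.Uni.en_inj _)
  intro p hp
  rw [Pool.Agent.H387R2.Uni.nu_en]
  exact prog_adm (by omega) hall p hp

/-- there are no other differences -/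
theorem converse (k : ℕ) (t : ℕ) (ht : 1 ≤ t) : ∃ X₀ : ℝ, ∀ X : ℝ, X₀ ≤ X → ∀ d : ℕ,
    (∃ p : ℕ, p.Prime ∧ p ≤ k ∧ ¬ p ∣ d) → ¬ ∃ n : ℕ, ∀ j < k, AlmostPrime t X (n + j * d) := by
  have ht0 : (0 : ℝ) < t := by exact_mod_cast ht
  obtain ⟨X3, h3⟩ := eventually_atTop.1 ((tendsto_rpow_atTop (show (0 : ℝ) < 1 / t by positivity)).eventually_ge_atTop (k : ℝ))
  refine ⟨X3, ?_⟩
  rintro X hX d ⟨p, hp, hpk, hpd⟩ ⟨n, hn⟩
  obtain ⟨j, hj, hdiv⟩ := hit hp hpk hpd n
  have h5 := (hn j hj).2.2 p hp hdiv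
  have h6 := h3 X hX
  have h7 : (p : ℝ) ≤ k := by exact_mod_cast hpk
  linarith

end Pool.Agent.Q162.MP.RB
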